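import Mathlib

/-! Finite check: the local equation for `p = 3`, `6 ≤ r ≤ 8` has no solution. -/

namespace Pool.Agent.DS

theorem three_aux (M N : ℕ) (hM : M ≤ 243) (hN : N ≤ 6561)
    (h : ∀ Y < M, ∀ c < 22, 2 ^ c * Y * (M - Y) + 2 * Y ≠ M * (N + 1)) {Y Z c : ℕ}
    (hY : 0 < Y) (hZ : 0 < Z) (hYZ : Y + Z = M) : 2 ^ c * Y * Z + 2 * Y ≠ M * (N + 1) := by
  have h1 : Z = M - Y := by omega
  by_cases hc : c < 22
  · rw [h1]
    exact h Y (by omega) c hc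
  · intro h2
    have h3 : 2 ^ 22 ≤ 2 ^ c := Nat.pow_le_pow_right (by norm_num) (by omega)
    have h4 : 2 ^ 22 * Y * Z ≤ 2 ^ c * Y * Z := by gcongr
    have h5 : 2 ^ 22 * 1 * 1 ≤ 2 ^ 22 * Y * Z := by gcongr <;> omega
    have h6 : M * (N + 1) ≤ 243 * 6562 := by gcongr; omega
    omega

theorem no_three {t r : ℕ} (ht : 1 ≤ t) (htr : 3 * t < 2 * r) (hr : 6 ≤ r) (hr9 : r < 9)
    {Y Z c : ℕ} (hY : 0 < Y) (hZ : 0 < Z) (hYZ : Y + Z = 3 ^ t) :
    2 ^ c * Y * Z + 2 * Y ≠ 3 ^ t * (3 ^ r + 1) := by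
  have h6 : t < 6 := by omega
  interval_cases r <;> interval_cases t <;>
    first
      | omega
      | exact three_aux _ _ (by norm_num) (by norm_num) (by decide +kernel) hY hZ hYZ

end Pool.Agent.DS
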