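import Pool.Agent.Helper20.DS.NT3
import Pool.Agent.DS.Three

namespace Pool.Agent.DS

/-- The local equation for odd order. -/
theorem local_arith2 {p : ℕ} (hp : p.Prime) (hp2 : p ≠ 2) {c t r : ℕ} (hc : 1 ≤ c) (hr : 1 ≤ r)
    (a δ : ℤ) (hδ : δ = 1 ∨ δ = -1) (h0 : 0 ≤ a) (h1 : a ≤ (p : ℤ) ^ t) (h2 : 0 ≤ a + δ)
    (h3 : a + δ ≤ (p : ℤ) ^ t) (ha : ((p : ℤ) - 1) ∣ a - 1) (ha' : ((p : ℤ) - 1) ∣ a + δ)
    (hE : 2 ^ c * a * ((p : ℤ) ^ t - a) + δ * ((p : ℤ) ^ t - 2 * a) = (p : ℤ) ^ (t + r)) :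
    (c = 2 ∧ t = r) ∨
      (3 ≤ c ∧ 1 ≤ t ∧ 3 * t < 2 * r ∧ (r < 6 → p = 5 ∧ c = 5 ∧ r = 2 ∧ t = 1) ∧
        (c = 5 → p = 5 ∧ r = 2 ∧ t = 1) ∧ (p ≠ 3 → Even r) ∧ (p = 3 → 9 ≤ r)) := by
  by_cases hne : c = 2 ∧ t = r
  · exact Or.inl hne
  right
  have hp3 : 3 ≤ p := by
    have := hp.two_le
    omega
  obtain ⟨Y, Z, hYZ, heq, hdiv⟩ : ∃ Y Z : ℕ, Y + Z = p ^ t ∧
      2 ^ c * Y * Z + 2 * Y = p ^ t * (p ^ r + 1) ∧ (5 ≤ p → (p - 1) ∣ Z) := by
    rcases hδ with rfl | rfl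
    · have h5 : ((p : ℤ) - 1) ∣ 2 := by
        have h6 := dvd_sub ha' ha
        have h7 : a + 1 - (a - 1) = 2 := by ring
        rwa [h7] at h6
      have h6 : (p : ℤ) - 1 ≤ 2 := Int.le_of_dvd (by norm_num) h5
      obtain ⟨Y, hY⟩ := Int.eq_ofNat_of_zero_le (sub_nonneg.2 h1)
      obtain ⟨Z, hZ⟩ := Int.eq_ofNat_of_zero_le h0
      refine ⟨Y, Z, ?_, ?_, fun h => by omega⟩
      · have : ((Y + Z : ℕ) : ℤ) = ((p ^ t : ℕ) : ℤ) := by
          push_cast
          rw [← hY, ← hZ]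
          ring
        exact_mod_cast this
      · have : ((2 ^ c * Y * Z + 2 * Y : ℕ) : ℤ) = ((p ^ t * (p ^ r + 1) : ℕ) : ℤ) := by
          push_cast
          rw [← hY, ← hZ]
          rw [pow_add] at hE
          linear_combination hE
        exact_mod_cast this
    · obtain ⟨Z, hZ⟩ := Int.eq_ofNat_of_zero_le (sub_nonneg.2 h1)
      obtain ⟨Y, hY⟩ := Int.eq_ofNat_of_zero_le h0
      refine ⟨Y, Z, ?_, ?_, fun _ => ?_⟩
      · have : ((Y + Z : ℕ) : ℤ) = ((p ^ t : ℕ) : ℤ) := by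
          push_cast
          rw [← hY, ← hZ]
          ring
        exact_mod_cast this
      · have : ((2 ^ c * Y * Z + 2 * Y : ℕ) : ℤ) = ((p ^ t * (p ^ r + 1) : ℕ) : ℤ) := by
          push_cast
          rw [← hY, ← hZ]
          rw [pow_add] at hE
          linear_combination hE
        exact_mod_cast this
      · have h5 : ((p : ℤ) - 1) ∣ (p : ℤ) ^ t - 1 := by
          simpa using sub_dvd_pow_sub_pow (p : ℤ) 1 t
        have h6 : ((p : ℤ) - 1) ∣ (Z : ℤ) := by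
          rw [show (Z : ℤ) = ((p : ℤ) ^ t - 1) - (a - 1) by
            have : (Z : ℤ) = (p : ℤ) ^ t - a := hZ.symm
            rw [this]
            ring]
          exact dvd_sub h5 ha
        have h7 : (((p - 1 : ℕ) : ℤ)) ∣ (Z : ℤ) := by
          rw [Nat.cast_sub hp.one_le]
          exact_mod_cast h6
        exact_mod_cast h7
  obtain ⟨ht, htr, hc3, hev, hone, hsix⟩ :=
    Pool.Agent.Helper20.DS.nt_final hp hp2 hr hc hYZ heq hdiv hne
  have hsix' : r < 6 → p = 5 ∧ c = 5 ∧ r = 2 ∧ t = 1 := fun h => by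
    obtain ⟨e1, e2, e3, e4, _, _⟩ := hsix h
    exact ⟨e1, e4, e2, e3⟩
  refine ⟨hc3, ht, htr, hsix', ?_, ?_, ?_⟩
  · intro hc5
    have hr6 : r < 6 := by
      -- 2 ^ 5 * Y * Z ≤ 8 * Q ^ 2
      have hQ : 0 < p ^ t := pow_pos hp.pos t
      have hle : p ^ r + 1 ≤ 8 * p ^ t + 2 := by
        have h4 : 4 * (Y * Z) ≤ (Y + Z) * (Y + Z) := by
          rcases le_total Y Z with hh | hh
          · obtain ⟨w, rfl⟩ := Nat.exists_eq_add_of_le hh
            nlinarith [sq_nonneg w]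
          · obtain ⟨w, rfl⟩ := Nat.exists_eq_add_of_le hh
            nlinarith [sq_nonneg w]
        rw [hYZ] at h4
        have h5 : p ^ t * (p ^ r + 1) ≤ p ^ t * (8 * p ^ t + 2) := by
          rw [← heq, hc5]
          have h6 : Y ≤ p ^ t := by omega
          nlinarith
        exact Nat.le_of_mul_le_mul_left h5 hQ
      by_contra hcon
      push Not at hcon
      -- r ≥ t + 2
      have h6 : t + 2 ≤ r := by omega
      have h7 : p ^ (t + 2) ≤ p ^ r := Nat.pow_le_pow_right hp.pos h6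
      have h8 : p ^ (t + 2) = p ^ t * (p * p) := by ring
      have h9 : 9 ≤ p * p := by nlinarith
      have h10 : 3 ≤ p ^ t := le_trans hp3 (by
        calc p = p ^ 1 := (pow_one p).symm
          _ ≤ p ^ t := Nat.pow_le_pow_right hp.pos ht)
      have h11 : p ^ t * 9 ≤ p ^ t * (p * p) := Nat.mul_le_mul_left _ h9
      omega
    obtain ⟨e1, _, e3, e4⟩ := hsix' hr6
    exact ⟨e1, e3, e4⟩
  · intro hp3'
    refine hev ?_
    by_contra h5
    have h4 : p = 4 := by omega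
    rw [h4] at hp
    exact absurd hp (by norm_num)
  · intro hp3'
    subst hp3'
    by_contra hcon
    have h6 : 6 ≤ r := by
      by_contra h7
      have := hsix' (by omega)
      omega
    obtain ⟨hY, hZ, _, _⟩ := Pool.Agent.Helper20.DS.coprime_of_eq hp hp2 hr hYZ heq
    exact no_three ht htr h6 (by omega) hY hZ hYZ heq

end Pool.Agent.DS
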