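import Pool.Agent.DS.Defs

namespace Pool.Agent.DS

open Finset

variable {G : Type*} [AddCommGroup G] [Fintype G]

/-- Fourier inversion. -/
theorem ft_inv (f : G → ℤ) (g : G) :
    (Fintype.card G : ℂ) * f g = ∑ χ : AddChar G ℂ, ft f χ * χ (-g) := by
  classical
  have h1 : ∑ χ : AddChar G ℂ, ft f χ * χ (-g) =
      ∑ x, (f x : ℂ) * ∑ χ : AddChar G ℂ, χ (x + -g) := by
    simp only [ft, Finset.sum_mul, Finset.mul_sum]
    rw [Finset.sum_comm]
    refine Finset.sum_congr rfl fun x _ => Finset.sum_congr rfl fun χ _ => ?_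
    rw [AddChar.map_add_eq_mul, mul_assoc]
  rw [h1]
  have h2 : ∀ x : G, (f x : ℂ) * ∑ χ : AddChar G ℂ, χ (x + -g) =
      if x = g then (Fintype.card G : ℂ) * f g else 0 := by
    intro x
    rw [AddChar.sum_apply_eq_ite]
    by_cases hx : x = g
    · subst hx
      simp [mul_comm]
    · have : x + -g ≠ 0 := by
        rwa [← sub_eq_add_neg, sub_ne_zero]
      simp [hx, this]
  simp [h2]

theorem ft_zero (f : G → ℤ) : ft f 0 = ((∑ g, f g : ℤ) : ℂ) := by
  simp [ft]

/-- Parseval. -/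
theorem parseval (f : G → ℤ) :
    ((Fintype.card G : ℤ) * ∑ g, f g ^ 2 : ℤ) = ∑ χ : AddChar G ℂ, ‖ft f χ‖ ^ 2 := by
  have h : (((Fintype.card G : ℤ) * ∑ g, f g ^ 2 : ℤ) : ℂ) =
      ((∑ χ : AddChar G ℂ, ‖ft f χ‖ ^ 2 : ℝ) : ℂ) := by
    have h1 : (((Fintype.card G : ℤ) * ∑ g, f g ^ 2 : ℤ) : ℂ) =
        ∑ g, (f g : ℂ) * ((Fintype.card G : ℂ) * f g) := by
      push_cast
      rw [Finset.mul_sum]
      exact Finset.sum_congr rfl fun g _ => by ring
    rw [h1]
    simp only [ft_inv, Finset.mul_sum]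
    rw [Finset.sum_comm]
    push_cast
    refine Finset.sum_congr rfl fun χ _ => ?_
    have h2 : ∀ g : G, (f g : ℂ) * (ft f χ * χ (-g)) =
        ft f χ * (starRingEnd ℂ) ((f g : ℂ) * χ g) := by
      intro g
      rw [AddChar.map_neg_eq_conj, map_mul, map_intCast]
      ring
    simp only [h2]
    rw [← Finset.mul_sum, ← map_sum]
    have h3 : (∑ g, (f g : ℂ) * χ g) = ft f χ := rfl
    rw [h3, Complex.mul_conj, Complex.normSq_eq_norm_sq]
    push_cast
    rfl
  exact_mod_cast h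

/-- `V` is the sum of the squares of the nontrivial Fourier coefficients. -/
theorem V_eq [DecidableEq (AddChar G ℂ)] (f : G → ℤ) :
    (V f : ℝ) = ∑ χ ∈ (univ : Finset (AddChar G ℂ)).erase 0, ‖ft f χ‖ ^ 2 := by
  have h := parseval f
  rw [← Finset.add_sum_erase _ _ (Finset.mem_univ (0 : AddChar G ℂ)), ft_zero,
    Complex.norm_intCast] at h
  unfold V
  push_cast at h ⊢
  rw [sq_abs] at h
  linarith

theorem V_pair (f : G → ℤ) : 2 * V f = ∑ g, ∑ g', (f g - f g') ^ 2 := by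
  have h : ∀ g : G, ∑ g', (f g - f g') ^ 2 =
      (Fintype.card G : ℤ) * f g ^ 2 - 2 * f g * (∑ g', f g') + ∑ g', f g' ^ 2 := by
    intro g
    have h1 : ∀ g' : G, (f g - f g') ^ 2 = f g ^ 2 - 2 * f g * f g' + f g' ^ 2 := fun g' => by ring
    simp only [h1, Finset.sum_add_distrib, Finset.sum_sub_distrib, ← Finset.mul_sum]
    simp
  simp only [h, Finset.sum_add_distrib, Finset.sum_sub_distrib, ← Finset.mul_sum,
    ← Finset.sum_mul]
  simp only [Finset.sum_const, Finset.card_univ, nsmul_eq_mul]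
  unfold V
  ring

theorem card_erase [DecidableEq (AddChar G ℂ)] :
    (((univ : Finset (AddChar G ℂ)).erase 0).card : ℝ) = (Fintype.card G : ℝ) - 1 := by
  rw [Finset.card_erase_of_mem (Finset.mem_univ _), Finset.card_univ, AddChar.card_eq]
  have : 1 ≤ Fintype.card G := Fintype.card_pos
  push_cast [Nat.cast_sub this]
  ring

theorem Flat.norm_sq {f : G → ℤ} {N : ℕ} (h : Flat f N) {χ : AddChar G ℂ} (hχ : χ ≠ 0) :
    ‖ft f χ‖ ^ 2 = (N : ℝ) ^ 2 := by
  rcases h χ hχ with h | h <;> rw [h] <;> simp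

theorem Flat.V_eq {f : G → ℤ} {N : ℕ} (h : Flat f N) :
    V f = (N : ℤ) ^ 2 * ((Fintype.card G : ℤ) - 1) := by
  classical
  have h1 := Pool.Agent.DS.V_eq f
  rw [Finset.sum_congr rfl fun χ hχ => h.norm_sq (Finset.ne_of_mem_erase hχ), Finset.sum_const,
    nsmul_eq_mul, card_erase] at h1
  have h2 : (V f : ℝ) = (((N : ℤ) ^ 2 * ((Fintype.card G : ℤ) - 1) : ℤ) : ℝ) := by
    rw [h1]
    push_cast
    ring
  exact_mod_cast h2

theorem V_ge {f : G → ℤ} {N : ℕ}
    (h : ∀ χ : AddChar G ℂ, χ ≠ 0 → ∃ z : ℤ, ft f χ = z ∧ (N : ℤ) ≤ |z|) :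
    (N : ℤ) ^ 2 * ((Fintype.card G : ℤ) - 1) ≤ V f := by
  classical
  have h1 := Pool.Agent.DS.V_eq f
  have h2 : ∀ χ ∈ (univ : Finset (AddChar G ℂ)).erase 0, (N : ℝ) ^ 2 ≤ ‖ft f χ‖ ^ 2 := by
    intro χ hχ
    obtain ⟨z, hz, hz2⟩ := h χ (Finset.ne_of_mem_erase hχ)
    rw [hz, Complex.norm_intCast]
    have : (N : ℝ) ≤ |(z : ℝ)| := by exact_mod_cast hz2
    exact pow_le_pow_left₀ (by positivity) this 2
  have h3 := Finset.card_nsmul_le_sum _ _ _ h2
  rw [nsmul_eq_mul, card_erase, ← h1] at h3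
  have h4 : (((N : ℤ) ^ 2 * ((Fintype.card G : ℤ) - 1) : ℤ) : ℝ) ≤ (V f : ℝ) := by
    push_cast
    linarith
  exact_mod_cast h4

/-- Extremal case: if all nontrivial Fourier coefficients are integers of absolute value
at least `N` and the variance is minimal, then `f` is flat. -/
theorem flat_of_V {f : G → ℤ} {N : ℕ}
    (h : ∀ χ : AddChar G ℂ, χ ≠ 0 → ∃ z : ℤ, ft f χ = z ∧ (N : ℤ) ≤ |z|)
    (hV : V f ≤ (N : ℤ) ^ 2 * ((Fintype.card G : ℤ) - 1)) : Flat f N := by
  classical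
  have h1 := Pool.Agent.DS.V_eq f
  have h2 : ∀ χ ∈ (univ : Finset (AddChar G ℂ)).erase 0, (N : ℝ) ^ 2 ≤ ‖ft f χ‖ ^ 2 := by
    intro χ hχ
    obtain ⟨z, hz, hz2⟩ := h χ (Finset.ne_of_mem_erase hχ)
    rw [hz, Complex.norm_intCast]
    have : (N : ℝ) ≤ |(z : ℝ)| := by exact_mod_cast hz2
    exact pow_le_pow_left₀ (by positivity) this 2
  have h3 : ∑ χ ∈ (univ : Finset (AddChar G ℂ)).erase 0, ‖ft f χ‖ ^ 2 =
      ∑ _χ ∈ (univ : Finset (AddChar G ℂ)).erase 0, (N : ℝ) ^ 2 := by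
    apply le_antisymm
    · rw [← h1, Finset.sum_const, nsmul_eq_mul, card_erase]
      have : (V f : ℝ) ≤ (((N : ℤ) ^ 2 * ((Fintype.card G : ℤ) - 1) : ℤ) : ℝ) := by
        exact_mod_cast hV
      push_cast at this
      linarith
    · exact Finset.sum_le_sum h2
  intro χ hχ
  have h4 := (Finset.sum_eq_sum_iff_of_le h2).mp h3.symm χ
    (Finset.mem_erase.mpr ⟨hχ, Finset.mem_univ _⟩)
  obtain ⟨z, hz, hz2⟩ := h χ hχ
  rw [hz, Complex.norm_intCast, sq_abs] at h4
  have h5 : (z : ℤ) ^ 2 = (N : ℤ) ^ 2 := by exact_mod_cast h4.symm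
  rcases sq_eq_sq_iff_eq_or_eq_neg.mp h5 with h6 | h6
  · left
    rw [hz, h6]
    simp
  · right
    rw [hz, h6]
    simp

/-- Fourier coefficients are algebraic integers. -/
theorem isIntegral_char (χ : AddChar G ℂ) (g : G) : IsIntegral ℤ (χ g) := by
  apply IsIntegral.of_pow (n := Fintype.card G) Fintype.card_pos
  rw [← AddChar.map_nsmul_eq_pow, card_nsmul_eq_zero, AddChar.map_zero_eq_one]
  exact isIntegral_one

/-- Fourier coefficients are algebraic integers. -/
theorem isIntegral_ft (f : G → ℤ) (χ : AddChar G ℂ) : IsIntegral ℤ (ft f χ) := by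
  unfold ft
  apply IsIntegral.sum
  intro g _
  exact (isIntegral_algebraMap (R := ℤ) (x := f g)).mul (isIntegral_char χ g)

/-- A rational algebraic integer is an integer; divisibility version. -/
theorem int_of_isIntegral {x : ℂ} (hx : IsIntegral ℤ x) {a b : ℤ} (hb : b ≠ 0)
    (h : (b : ℂ) * x = a) : ∃ z : ℤ, x = z ∧ b * z = a := by
  have hb' : (b : ℂ) ≠ 0 := by exact_mod_cast hb
  have h1 : x = ((a / b : ℚ) : ℂ) := by
    push_cast
    rw [eq_div_iff hb', mul_comm, h]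
  rw [h1] at hx
  have h2 : IsIntegral ℤ (a / b : ℚ) := by
    have := (isIntegral_algHom_iff (Algebra.ofId ℚ ℂ |>.restrictScalars ℤ)
      (algebraMap ℚ ℂ).injective (x := (a / b : ℚ))).mp
    apply this
    exact hx
  obtain ⟨z, hz⟩ := IsIntegrallyClosed.isIntegral_iff.mp h2
  refine ⟨z, ?_, ?_⟩
  · rw [h1, ← hz]
    simp
  · have h3 : (z : ℚ) = a / b := by simpa using hz
    have h4 : (b : ℚ) ≠ 0 := by exact_mod_cast hb
    have h5 : (b : ℚ) * z = a := by
      rw [h3]
      field_simp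
    exact_mod_cast h5

/-- Differences of values of a flat function, times `|G|`, are divisible by `N`. -/
theorem Flat.dvd {f : G → ℤ} {N : ℕ} (h : Flat f N) (g g' : G) :
    (N : ℤ) ∣ (Fintype.card G : ℤ) * (f g - f g') := by
  classical
  rcases Nat.eq_zero_or_pos N with hN | hN
  · subst hN
    have hV := h.V_eq
    have h0 := V_pair f
    rw [hV] at h0
    have h1 : ∀ x ∈ (univ : Finset G), 0 ≤ ∑ g', (f x - f g') ^ 2 :=
      fun x _ => Finset.sum_nonneg fun _ _ => sq_nonneg _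
    have h2 := (Finset.sum_eq_zero_iff_of_nonneg h1).mp (by rw [← h0]; simp) g (Finset.mem_univ _)
    have h3 := (Finset.sum_eq_zero_iff_of_nonneg (fun _ _ => sq_nonneg _)).mp h2 g'
      (Finset.mem_univ _)
    have h4 : f g - f g' = 0 := by simpa using h3
    simp [h4]
  · -- signs
    let e : AddChar G ℂ → ℤ := fun χ => if ft f χ = N then 1 else -1
    have he : ∀ χ : AddChar G ℂ, χ ≠ 0 → ft f χ = (N : ℂ) * (e χ : ℂ) := by
      intro χ hχ
      rcases h χ hχ with h1 | h1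
      · simp [e, h1]
      · have : ¬ ft f χ = N := by
          rw [h1]
          intro h2
          have h3 : (N : ℂ) = 0 := by linear_combination (-1/2 : ℂ) * h2
          exact hN.ne' (by exact_mod_cast h3)
        simp [e, this, h1]
    have h1 : (Fintype.card G : ℂ) * f g - (Fintype.card G : ℂ) * f g' =
        (N : ℂ) * ∑ χ ∈ (univ : Finset (AddChar G ℂ)).erase 0, (e χ : ℂ) * (χ (-g) - χ (-g')) := by
      rw [ft_inv, ft_inv, ← Finset.sum_sub_distrib, ← Finset.add_sum_erase _ _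
        (Finset.mem_univ (0 : AddChar G ℂ)), Finset.mul_sum]
      simp only [AddChar.zero_apply, sub_self, zero_add]
      refine Finset.sum_congr rfl fun χ hχ => ?_
      rw [he χ (Finset.ne_of_mem_erase hχ)]
      ring
    have h2 : IsIntegral ℤ (∑ χ ∈ (univ : Finset (AddChar G ℂ)).erase 0,
        (e χ : ℂ) * (χ (-g) - χ (-g'))) := by
      apply IsIntegral.sum
      intro χ _
      exact (isIntegral_algebraMap (R := ℤ) (x := e χ)).mul
        ((isIntegral_char χ _).sub (isIntegral_char χ _))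
    obtain ⟨z, hz, hz2⟩ := int_of_isIntegral h2 (a := (Fintype.card G : ℤ) * (f g - f g'))
      (b := (N : ℤ)) (by exact_mod_cast hN.ne') (by
        push_cast
        rw [← h1]
        ring)
    exact ⟨z, hz2.symm⟩

/-- A function with vanishing nontrivial Fourier coefficients is constant. -/
theorem const_of_ft {f : G → ℤ} (h : ∀ χ : AddChar G ℂ, χ ≠ 0 → ft f χ = 0) (g g' : G) :
    f g = f g' := by
  classical
  have h1 : (Fintype.card G : ℂ) * f g = (Fintype.card G : ℂ) * f g' := by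
    rw [ft_inv, ft_inv]
    refine Finset.sum_congr rfl fun χ _ => ?_
    by_cases hχ : χ = 0
    · simp [hχ]
    · simp [h χ hχ]
  have h2 : (Fintype.card G : ℂ) ≠ 0 := by
    exact_mod_cast (Fintype.card_pos (α := G)).ne'
  exact_mod_cast mul_left_cancel₀ h2 h1

theorem ft_comp_equiv {A : Type*} [AddCommGroup A] [Fintype A] (f : G → ℤ) (e : A ≃+ G)
    (χ : AddChar A ℂ) :
    ft (fun a => f (e a)) χ = ft f (χ.compAddMonoidHom e.symm.toAddMonoidHom) := by
  unfold ft
  apply Fintype.sum_equiv e.toEquiv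
  intro a
  simp

theorem Flat.comp_equiv {A : Type*} [AddCommGroup A] [Fintype A] {f : G → ℤ} {N : ℕ}
    (h : Flat f N) (e : A ≃+ G) : Flat (fun a => f (e a)) N := by
  intro χ hχ
  rw [ft_comp_equiv]
  apply h
  intro h0
  apply hχ
  ext a
  have := DFunLike.congr_fun h0 (e a)
  simpa using this

/-- The complement of a flat function. -/
theorem Flat.compl {f : G → ℤ} {N : ℕ} (h : Flat f N) : Flat (fun g => 1 - f g) N := by
  intro χ hχ
  have h1 : ft (fun g => 1 - f g) χ = - ft f χ := by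
    unfold ft
    push_cast
    simp only [sub_mul, one_mul, Finset.sum_sub_distrib]
    rw [AddChar.sum_eq_zero_iff_ne_zero.mpr hχ]
    ring
  rcases h χ hχ with h2 | h2
  · right
    rw [h1, h2]
  · left
    rw [h1, h2]
    simp

end Pool.Agent.DS
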