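import Pool.Agent.DS.Rat

namespace Pool.Agent.DS

open Finset

/-- An integer acting on `P` (of order `p ^ s`) like a fixed point free automorphism of order
`p - 1`. -/
theorem exists_teich {p s : ℕ} (hp : p.Prime) : ∃ t : ℕ, t.Coprime p ∧
    t ^ (p - 1) ≡ 1 [MOD p ^ s] ∧ ∀ j, 0 < j → j < p - 1 → (t ^ j).Coprime p ∧
      ¬ t ^ j ≡ 1 [MOD p] := by
  have : Fact p.Prime := ⟨hp⟩
  obtain ⟨w, hw⟩ := IsCyclic.exists_generator (α := (ZMod p)ˣ)
  have hord : orderOf w = p - 1 := by
    rw [orderOf_eq_card_of_forall_mem_zpowers hw, Nat.card_eq_fintype_card, ZMod.card_units]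
  obtain ⟨u, hu⟩ : ∃ u : ℕ, (u : ZMod p) = (w : ZMod p) :=
    ⟨(w : ZMod p).val, ZMod.natCast_zmod_val _⟩
  have huc : u.Coprime p := by
    rw [← ZMod.isUnit_iff_coprime, hu]
    exact w.isUnit
  have htu : ((u ^ p ^ (s - 1) : ℕ) : ZMod p) = (w : ZMod p) := by
    push_cast
    rw [ZMod.pow_card_pow, hu]
  refine ⟨u ^ p ^ (s - 1), huc.pow_left _, ?_, ?_⟩
  · rcases Nat.eq_zero_or_pos s with h | h
    · subst h
      rw [pow_zero]
      exact Nat.modEq_one
    · rw [← pow_mul]
      have h1 : p ^ (s - 1) * (p - 1) = Nat.totient (p ^ s) := by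
        rw [Nat.totient_prime_pow hp h]
      rw [h1]
      exact Nat.ModEq.pow_totient (huc.pow_right _)
  · intro j hj hj'
    refine ⟨(huc.pow_left _).pow_left _, ?_⟩
    intro h
    rw [← ZMod.natCast_eq_natCast_iff, Nat.cast_pow, htu, Nat.cast_one] at h
    have h1 : w ^ j = 1 := by
      apply Units.ext
      rw [Units.val_pow_eq_pow_val, h, Units.val_one]
    have h2 := orderOf_dvd_of_pow_eq_one h1
    rw [hord] at h2
    exact absurd (Nat.le_of_dvd hj h2) (by omega)

theorem cong {P : Type*} [AddCommGroup P] [Fintype P] {p s : ℕ} (hp : p.Prime)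
    (hP : Fintype.card P = p ^ s) (g : P → ℤ)
    (hg : ∀ t : ℕ, t.Coprime p → ∀ y, g (t • y) = g y) :
    ((p : ℤ) - 1) ∣ ∑ y, g y - g 0 := by
  classical
  obtain ⟨t, htp, ht1, htj⟩ := exists_teich (s := s) hp
  have hp2 := hp.two_le
  have hmod : ∀ (a b : ℕ) (y : P), a ≡ b [MOD p ^ s] → a • y = b • y := by
    intro a b y hab
    have h1 : addOrderOf y ∣ p ^ s := by rw [← hP]; exact addOrderOf_dvd_card
    rw [← mod_addOrderOf_nsmul y a, ← mod_addOrderOf_nsmul y b]
    rw [show a % addOrderOf y = b % addOrderOf y from hab.of_dvd h1]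
  have hper : ∀ y : P, t ^ (p - 1) • y = y := fun y => by
    rw [hmod _ 1 y ht1, one_nsmul]
  have hperm : ∀ (m j : ℕ) (y : P), t ^ (j + m * (p - 1)) • y = t ^ j • y := by
    intro m j y
    induction m with
    | zero => simp
    | succ m ih =>
      have : j + (m + 1) * (p - 1) = (p - 1) + (j + m * (p - 1)) := by ring
      rw [this, pow_add, mul_smul, hper, ih]
  have hmodj : ∀ (j : ℕ) (y : P), t ^ j • y = t ^ (j % (p - 1)) • y := by
    intro j y
    have := hperm (j / (p - 1)) (j % (p - 1)) y
    rw [Nat.mul_comm, Nat.mod_add_div] at this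
    exact this
  have hginv : ∀ (j : ℕ) (y : P), g (t ^ j • y) = g y := fun j y => hg _ (htp.pow_left j) y
  -- the action is free
  have hfree : ∀ (y : P), y ≠ 0 → ∀ i j, i < j → j < p - 1 → t ^ i • y ≠ t ^ j • y := by
    intro y hy i j hij hj h
    obtain ⟨d, rfl⟩ : ∃ d, j = i + d := ⟨j - i, by omega⟩
    have hz : ∃ z : P, z ≠ 0 ∧ t ^ d • z = z := by
      refine ⟨t ^ i • y, ?_, ?_⟩
      · intro h0
        apply hy
        have h1 : t ^ ((p - 1) * (i + 1) - i) • (t ^ i • y) = y := by
          rw [← mul_smul, ← pow_add]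
          have h2 : (p - 1) * (i + 1) - i + i = 0 + (i + 1) * (p - 1) := by
            have : i ≤ (p - 1) * (i + 1) := by
              calc i ≤ 1 * (i + 1) := by omega
                _ ≤ (p - 1) * (i + 1) := Nat.mul_le_mul_right _ (by omega)
            rw [Nat.sub_add_cancel this]; ring
          rw [h2, hperm, pow_zero, one_nsmul]
        rw [h0, smul_zero] at h1
        exact h1.symm
      · rw [← mul_smul, ← pow_add, add_comm, ← h]
    obtain ⟨z, hz0, hz⟩ := hz
    obtain ⟨hc, hne⟩ := htj d (by omega) (by omega)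
    -- `t ^ d - 1` is prime to `p`, so `z = 0`
    apply hz0
    have h1 : (t ^ d - 1) • z = 0 := by
      have h2 : 1 ≤ t ^ d := Nat.one_le_iff_ne_zero.2 (by
        intro h3
        rw [h3] at hc
        rw [Nat.coprime_zero_left] at hc
        omega)
      have h4 : (t ^ d - 1 + 1) • z = z := by rw [Nat.sub_add_cancel h2, hz]
      rw [add_smul, one_nsmul] at h4
      exact add_eq_right.1 h4
    have h2 : (t ^ d - 1).Coprime p := by
      rw [Nat.coprime_comm, hp.coprime_iff_not_dvd]
      intro h3
      apply hne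
      have h4 : 1 ≤ t ^ d := Nat.one_le_iff_ne_zero.2 (by
        intro h3
        rw [h3] at hc
        rw [Nat.coprime_zero_left] at hc
        omega)
      exact ((Nat.modEq_iff_dvd' h4).2 h3).symm
    have h3 : addOrderOf z ∣ Nat.gcd (t ^ d - 1) (p ^ s) :=
      Nat.dvd_gcd (addOrderOf_dvd_of_nsmul_eq_zero h1) (by rw [← hP]; exact addOrderOf_dvd_card)
    rw [h2.pow_right s] at h3
    exact AddMonoid.addOrderOf_eq_one_iff.1 (Nat.dvd_one.1 h3)
  have key : ∀ (m : ℕ) (S : Finset P), S.card ≤ m → (0 : P) ∉ S → (∀ y ∈ S, t • y ∈ S) →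
      ((p : ℤ) - 1) ∣ ∑ y ∈ S, g y := by
    intro m
    induction m with
    | zero =>
      intro S hS _ _
      rw [card_eq_zero.1 (Nat.le_zero.1 hS), sum_empty]
      exact dvd_zero _
    | succ m ih =>
      intro S hS h0 hcl
      rcases S.eq_empty_or_nonempty with h | ⟨y, hy⟩
      · rw [h, sum_empty]; exact dvd_zero _
      · have hy0 : y ≠ 0 := fun h => h0 (h ▸ hy)
        have hclj : ∀ j, ∀ x ∈ S, t ^ j • x ∈ S := by
          intro j
          induction j with
          | zero => intro x hx; simpa using hx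
          | succ j ihj => intro x hx; rw [pow_succ', mul_smul]; exact hcl _ (ihj x hx)
        let O : Finset P := (range (p - 1)).image (fun j => t ^ j • y)
        have hOS : O ⊆ S := by
          intro x hx
          obtain ⟨j, _, rfl⟩ := mem_image.1 hx
          exact hclj j y hy
        have hmemO : ∀ j, t ^ j • y ∈ O := by
          intro j
          rw [hmodj]
          exact mem_image_of_mem _ (mem_range.2 (Nat.mod_lt _ (by omega)))
        have hyO : y ∈ O := by simpa using hmemO 0
        have hinj : Set.InjOn (fun j => t ^ j • y) (range (p - 1) : Set ℕ) := by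
          intro i hi j hj hij
          rw [mem_coe, mem_range] at hi hj
          simp only at hij
          rcases lt_trichotomy i j with h | h | h
          · exact absurd hij (hfree y hy0 i j h hj)
          · exact h
          · exact absurd hij.symm (hfree y hy0 j i h hi)
        have hsumO : ∑ x ∈ O, g x = ((p : ℤ) - 1) * g y := by
          rw [sum_image hinj, sum_congr rfl (fun j _ => hginv j y), sum_const, card_range,
            nsmul_eq_mul, Nat.cast_sub hp.one_le, Nat.cast_one]
        rw [← sum_sdiff hOS, hsumO]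
        refine dvd_add (ih (S \ O) ?_ ?_ ?_) (dvd_mul_right _ _)
        · have := card_lt_card (sdiff_ssubset hOS ⟨y, hyO⟩)
          omega
        · intro h; exact h0 (mem_sdiff.1 h).1
        · intro x hx
          rw [mem_sdiff] at hx ⊢
          refine ⟨hcl x hx.1, fun h => hx.2 ?_⟩
          obtain ⟨j, _, hj⟩ := mem_image.1 h
          have h1 : t ^ (p - 2 + j) • y = x := by
            rw [pow_add, mul_smul, hj, ← mul_smul, ← pow_succ]
            have : p - 2 + 1 = p - 1 := by omega
            rw [this, hper]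
          rw [← h1]
          exact hmemO _
  have h1 := key _ (univ.erase 0) le_rfl (notMem_erase _ _) (fun y hy => by
    rw [mem_erase] at hy ⊢
    refine ⟨fun h => hy.1 ?_, mem_univ _⟩
    have h2 : t ^ (p - 2) • (t • y) = y := by
      rw [← mul_smul, ← pow_succ]
      have : p - 2 + 1 = p - 1 := by omega
      rw [this, hper]
    rw [h, smul_zero] at h2
    exact h2.symm)
  have h2 := add_sum_erase univ g (mem_univ (0 : P))
  rw [← h2]
  simpa using h1

theorem cong2 {H P : Type*} [AddCommGroup H] [Fintype H] [AddCommGroup P] [Fintype P] {p s N : ℕ}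
    (hp : p.Prime) (hH : (Fintype.card H).Coprime p) (hP : Fintype.card P = p ^ s)
    {f : H × P → ℤ} (hF : Flat f N) (h : H) :
    ((p : ℤ) - 1) ∣ ∑ y, f (h, y) - f (h, 0) := by
  refine cong hp hP (fun y => f (h, y)) ?_
  intro t ht y
  obtain ⟨t', ht1, ht2⟩ := Nat.chineseRemainder (hH.pow_right s) 1 t
  have hcop : t'.Coprime (Fintype.card (H × P)) := by
    rw [Fintype.card_prod, hP]
    apply Nat.Coprime.mul_right
    · have h1 : Nat.gcd t' (Fintype.card H) = Nat.gcd 1 (Fintype.card H) := ht1.gcd_eq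
      rw [Nat.gcd_one_left] at h1
      exact h1
    · have h1 : Nat.gcd t' (p ^ s) = Nat.gcd t (p ^ s) := ht2.gcd_eq
      rw [ht.pow_right s] at h1
      exact h1
  have h1 := hF.rat t' hcop (h, y)
  have e1 : t' • h = h := by
    have h2 : addOrderOf h ∣ Fintype.card H := addOrderOf_dvd_card
    rw [← mod_addOrderOf_nsmul h t', show t' % addOrderOf h = 1 % addOrderOf h from
      ht1.of_dvd h2, mod_addOrderOf_nsmul, one_nsmul]
  have e2 : t' • y = t • y := by
    have h2 : addOrderOf y ∣ p ^ s := by rw [← hP]; exact addOrderOf_dvd_card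
    rw [← mod_addOrderOf_nsmul y t', show t' % addOrderOf y = t % addOrderOf y from
      ht2.of_dvd h2, mod_addOrderOf_nsmul]
  rw [Prod.smul_mk, e1, e2] at h1
  exact h1

end Pool.Agent.DS
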