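import Mathlib

/-!
# Reversible difference sets: definitions

`ft f χ` is the Fourier coefficient of an integer valued function on a finite abelian group;
`Flat f N`: all nontrivial Fourier coefficients are `N` or `-N`; `Ind f`: `f` is `0/1` valued.
-/

namespace Pool.Agent.DS

open Finset

variable {G : Type*} [AddCommGroup G] [Fintype G]

/-- Fourier coefficient of `f` at the character `χ`. -/
noncomputable def ft (f : G → ℤ) (χ : AddChar G ℂ) : ℂ := ∑ g, (f g : ℂ) * χ g

/-- All nontrivial Fourier coefficients of `f` are `N` or `-N`. -/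
def Flat (f : G → ℤ) (N : ℕ) : Prop :=
  ∀ χ : AddChar G ℂ, χ ≠ 0 → ft f χ = N ∨ ft f χ = -N

/-- `f` takes only the values `0` and `1`. -/
def Ind (f : G → ℤ) : Prop := ∀ g, f g = 0 ∨ f g = 1

/-- The variance of `f`, times `|G|^2`. -/
def V (f : G → ℤ) : ℤ := (Fintype.card G : ℤ) * ∑ g, f g ^ 2 - (∑ g, f g) ^ 2

/-- `D` is a `(v, k, lam)` difference set: every nonzero `g` is `d - d'` in exactly `lam` ways. -/
def IsDiffSet [DecidableEq G] (D : Finset G) (lam : ℕ) : Prop :=
  ∀ g : G, g ≠ 0 → ((D ×ˢ D).filter fun x => x.1 - x.2 = g).card = lam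

/-- `-1` is a multiplier of `D`: `-D` is a translate of `D`. -/
def NegMult [DecidableEq G] (D : Finset G) : Prop :=
  ∃ a : G, D.image (fun d => -d) = D.image (fun d => d + a)

end Pool.Agent.DS
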