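import Mathlib

/-!
`2^c = 2 + p + ... + p^6` has no solution in odd primes `p` (a square root modulo `p^3` is unique
up to sign, and `32 / √2` is not near an integer).
-/

namespace Pool.Agent.DS

theorem pow_two_ne {N e : ℕ} (h1 : 2 ^ e < N) (h2 : N < 2 ^ (e + 1)) (c : ℕ) : 2 ^ c ≠ N := by
  rintro rfl
  have h3 := (Nat.pow_lt_pow_iff_right (by norm_num)).mp h1
  have h4 := (Nat.pow_lt_pow_iff_right (by norm_num)).mp h2
  omega

theorem six {p : ℕ} (hp : p.Prime) (hp2 : p ≠ 2) {c : ℕ} :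
    (2 : ℤ) ^ c ≠ 2 + p + (p : ℤ) ^ 2 + (p : ℤ) ^ 3 + (p : ℤ) ^ 4 + (p : ℤ) ^ 5 + (p : ℤ) ^ 6 := by
  intro h
  have hpodd : Odd p := hp.odd_of_ne_two hp2
  have hp3 : 3 ≤ p := by
    have := hp.two_le
    omega
  -- small primes
  have hsmall : 53 ≤ p := by
    by_contra hcon
    have hlt : p < 53 := by omega
    have hN : 2 ^ c = 2 + p + p ^ 2 + p ^ 3 + p ^ 4 + p ^ 5 + p ^ 6 := by exact_mod_cast h
    interval_cases p <;> first
      | (exfalso; revert hp; norm_num; done)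
      | (refine (pow_two_ne (e := 10) ?_ ?_ c hN).elim <;> norm_num; done)
      | (refine (pow_two_ne (e := 14) ?_ ?_ c hN).elim <;> norm_num; done)
      | (refine (pow_two_ne (e := 17) ?_ ?_ c hN).elim <;> norm_num; done)
      | (refine (pow_two_ne (e := 20) ?_ ?_ c hN).elim <;> norm_num; done)
      | (refine (pow_two_ne (e := 22) ?_ ?_ c hN).elim <;> norm_num; done)
      | (refine (pow_two_ne (e := 24) ?_ ?_ c hN).elim <;> norm_num; done)
      | (refine (pow_two_ne (e := 25) ?_ ?_ c hN).elim <;> norm_num; done)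
      | (refine (pow_two_ne (e := 27) ?_ ?_ c hN).elim <;> norm_num; done)
      | (refine (pow_two_ne (e := 29) ?_ ?_ c hN).elim <;> norm_num; done)
      | (refine (pow_two_ne (e := 31) ?_ ?_ c hN).elim <;> norm_num; done)
      | (refine (pow_two_ne (e := 32) ?_ ?_ c hN).elim <;> norm_num; done)
      | (refine (pow_two_ne (e := 33) ?_ ?_ c hN).elim <;> norm_num; done)
  have hpZ : (53 : ℤ) ≤ p := by exact_mod_cast hsmall
  rcases Nat.even_or_odd c with ⟨m, hm⟩ | ⟨m, hm⟩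
  · -- even exponent: Runge
    set y : ℤ := 2 ^ m with hy
    have hy0 : 0 < y := by positivity
    have h1 : y ^ 2 = 2 + p + (p : ℤ) ^ 2 + (p : ℤ) ^ 3 + (p : ℤ) ^ 4 + (p : ℤ) ^ 5 +
        (p : ℤ) ^ 6 := by
      rw [← h, hm, hy]
      ring
    set L : ℤ := 16 * (p : ℤ) ^ 3 + 8 * (p : ℤ) ^ 2 + 6 * p + 5 with hL
    have hLpos : 0 < L := by positivity
    have h2 : (16 * y) ^ 2 - L ^ 2 = 140 * (p : ℤ) ^ 2 + 196 * p + 487 := by
      rw [hL]
      linear_combination 256 * h1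
    have h3 : (L + 1) ^ 2 - (16 * y) ^ 2 = 32 * (p : ℤ) ^ 3 - 124 * (p : ℤ) ^ 2 - 184 * p - 476 := by
      rw [hL]
      linear_combination (-256) * h1
    have h4 : L < 16 * y := by
      apply lt_of_pow_lt_pow_left₀ 2 (by positivity)
      nlinarith
    have h5 : 16 * y < L + 1 := by
      apply lt_of_pow_lt_pow_left₀ 2 (by positivity)
      have : 0 < 32 * (p : ℤ) ^ 3 - 124 * (p : ℤ) ^ 2 - 184 * p - 476 := by
        nlinarith [mul_pos (show (0 : ℤ) < p by linarith) (show (0 : ℤ) < p by linarith)]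
      linarith
    omega
  · -- odd exponent
    set y : ℤ := 2 ^ m with hy
    have hy0 : 0 < y := by positivity
    have h1 : 2 * y ^ 2 = 2 + p + (p : ℤ) ^ 2 + (p : ℤ) ^ 3 + (p : ℤ) ^ 4 + (p : ℤ) ^ 5 +
        (p : ℤ) ^ 6 := by
      rw [← h, hm, hy]
      ring
    set S : ℤ := 32 + 8 * p + 7 * (p : ℤ) ^ 2 with hS
    have h2 : (32 * y - S) * (32 * y + S) =
        (p : ℤ) ^ 3 * (400 + 463 * p + 512 * (p : ℤ) ^ 2 + 512 * (p : ℤ) ^ 3) := by
      rw [hS]
      linear_combination 512 * h1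
    have hpp : Prime (p : ℤ) := Nat.prime_iff_prime_int.mp hp
    have hnot : ¬ ((p : ℤ) ∣ 32 * y - S ∧ (p : ℤ) ∣ 32 * y + S) := by
      rintro ⟨h3, h4⟩
      have h5 : (p : ℤ) ∣ 64 := by
        have h6 : (p : ℤ) ∣ (32 * y + S) - (32 * y - S) := dvd_sub h4 h3
        have h7 : (64 : ℤ) = ((32 * y + S) - (32 * y - S)) - p * (16 + 14 * p) := by
          rw [hS]
          ring
        rw [h7]
        exact dvd_sub h6 (dvd_mul_right _ _)
      have h8 : p ∣ 2 ^ 6 := by exact_mod_cast h5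
      exact hp2 ((Nat.prime_dvd_prime_iff_eq hp Nat.prime_two).mp (hp.dvd_of_dvd_pow h8))
    have hor : ∃ σ T : ℤ, (σ = 1 ∨ σ = -1) ∧ 32 * y = σ * S + T * (p : ℤ) ^ 3 := by
      by_cases h3 : (p : ℤ) ∣ 32 * y + S
      · have h4 : ¬ (p : ℤ) ∣ 32 * y - S := fun h => hnot ⟨h, h3⟩
        obtain ⟨T, hT⟩ := hpp.pow_dvd_of_dvd_mul_left 3 h4 ⟨_, h2⟩
        exact ⟨-1, T, Or.inr rfl, by linear_combination hT⟩
      · obtain ⟨T, hT⟩ := hpp.pow_dvd_of_dvd_mul_right 3 h3 ⟨_, h2⟩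
        exact ⟨1, T, Or.inl rfl, by linear_combination hT⟩
    obtain ⟨σ, T, hσ, hT⟩ := hor
    have hσσ : σ * σ = 1 := by rcases hσ with h | h <;> rw [h] <;> norm_num
    have h3 : (p : ℤ) ^ 3 * (T ^ 2 - 512) + (p : ℤ) ^ 2 * (14 * (σ * T) - 512) +
        p * (16 * (σ * T) - 463) + (64 * (σ * T) - 400) = 0 := by
      have h4 : (p : ℤ) ^ 3 * ((p : ℤ) ^ 3 * (T ^ 2 - 512) + (p : ℤ) ^ 2 * (14 * (σ * T) - 512) +
        p * (16 * (σ * T) - 463) + (64 * (σ * T) - 400)) = (p : ℤ) ^ 3 * 0 := by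
        have h5 : (32 * y) ^ 2 - S ^ 2 =
          (p : ℤ) ^ 3 * (400 + 463 * p + 512 * (p : ℤ) ^ 2 + 512 * (p : ℤ) ^ 3) := by
          rw [← h2]
          ring
        rw [hT] at h5
        rw [hS] at h5
        linear_combination h5 - (32 + 8 * (p : ℤ) + 7 * (p : ℤ) ^ 2) ^ 2 * hσσ
      exact mul_left_cancel₀ (by positivity) h4
    have hTpos : 0 < T := by
      by_contra hcon
      have hT0 : T ≤ 0 := by omega
      have hSpos : 0 < S := by positivity
      have h5 : 32 * y ≤ S := by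
        have h6 : T * (p : ℤ) ^ 3 ≤ 0 := mul_nonpos_of_nonpos_of_nonneg hT0 (by positivity)
        rcases hσ with h | h <;> rw [h] at hT <;> linarith
      have h7 : 0 < (32 * y - S) * (32 * y + S) := by
        rw [h2]
        positivity
      have h8 : 0 < 32 * y - S := (pos_iff_pos_of_mul_pos h7).mpr (by positivity)
      linarith
    have hp2' : (p : ℤ) ^ 3 = p * (p : ℤ) ^ 2 := by ring
    set q : ℤ := (p : ℤ) ^ 2 with hq
    have hqp : 53 * (p : ℤ) ≤ q := by rw [hq]; nlinarith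
    have hq0 : 0 < q := by positivity
    rcases le_or_gt T 22 with hT22 | hT23
    · -- `T ≤ 22`: negative
      have h5 : T ^ 2 ≤ 484 := by nlinarith
      have h6 : σ * T ≤ 22 := by rcases hσ with h | h <;> rw [h] <;> linarith
      have h7 : (p : ℤ) ^ 3 * (T ^ 2 - 512) ≤ (p : ℤ) ^ 3 * (-28) :=
        mul_le_mul_of_nonneg_left (by linarith) (by positivity)
      have h8 : q * (14 * (σ * T) - 512) ≤ q * (-204) :=
        mul_le_mul_of_nonneg_left (by linarith) (by positivity)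
      have h9 : (p : ℤ) * (16 * (σ * T) - 463) ≤ p * (-111) :=
        mul_le_mul_of_nonneg_left (by linarith) (by positivity)
      have h10 : 0 < (p : ℤ) ^ 3 := by positivity
      nlinarith
    · -- `T ≥ 23`: positive
      have hT23' : 23 ≤ T := hT23
      have h6 : -T ≤ σ * T := by rcases hσ with h | h <;> rw [h] <;> linarith
      have h7 : q * (14 * (-T) - 512) ≤ q * (14 * (σ * T) - 512) :=
        mul_le_mul_of_nonneg_left (by linarith) (by positivity)
      have h8 : (p : ℤ) * (16 * (-T) - 463) ≤ p * (16 * (σ * T) - 463) :=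
        mul_le_mul_of_nonneg_left (by linarith) (by positivity)
      have h9 : 53 * (q * (T ^ 2 - 512)) ≤ (p : ℤ) ^ 3 * (T ^ 2 - 512) := by
        rw [hp2']
        have : 0 ≤ q * (T ^ 2 - 512) := by
          apply mul_nonneg hq0.le
          nlinarith
        nlinarith
      have hT0 : 0 ≤ T := by linarith
      have h11 : 64 * T + 400 ≤ 2809 * (T ^ 2 - 512) - 53 * (14 * T + 512) - (16 * T + 463) := by
        nlinarith
      have h12 : q * (64 * T + 400) ≤
          q * (2809 * (T ^ 2 - 512) - 53 * (14 * T + 512) - (16 * T + 463)) :=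
        mul_le_mul_of_nonneg_left h11 hq0.le
      have h13 : 53 * (64 * T + 400) < q * (64 * T + 400) :=
        mul_lt_mul_of_pos_right (by nlinarith) (by linarith)
      have h14 : 53 * (p : ℤ) * (16 * T + 463) ≤ q * (16 * T + 463) :=
        mul_le_mul_of_nonneg_right hqp (by linarith)
      nlinarith

/-- The case `t = 1`, `r = 6` of the local equation. -/
theorem no_six {p : ℕ} (hp : p.Prime) (hp2 : p ≠ 2) {c : ℕ} (hc : 1 ≤ c)
    (a δ : ℤ) (hδ : δ = 1 ∨ δ = -1) (h0 : 0 ≤ a) (h1 : a ≤ (p : ℤ) ^ 1)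
    (ha : ((p : ℤ) - 1) ∣ a - 1) (ha' : ((p : ℤ) - 1) ∣ a + δ)
    (hE : 2 ^ c * a * ((p : ℤ) ^ 1 - a) + δ * ((p : ℤ) ^ 1 - 2 * a) = (p : ℤ) ^ (1 + 6)) :
    False := by
  have hp3 : 3 ≤ p := by
    have := hp.two_le
    omega
  have hpZ : (3 : ℤ) ≤ p := by exact_mod_cast hp3
  rw [pow_one] at h1 hE
  obtain ⟨i, hi⟩ := ha
  have hi0 : 0 ≤ i := by
    by_contra hcon
    have : i ≤ -1 := by omega
    nlinarith
  have hi1 : i ≤ 1 := by
    by_contra hcon
    have : 2 ≤ i := by omega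
    nlinarith
  have hi2 : i = 0 ∨ i = 1 := by omega
  rcases hi2 with rfl | rfl
  · have ha1 : a = 1 := by linarith
    subst ha1
    rcases hδ with rfl | rfl
    · obtain ⟨j, hj⟩ := ha'
      have hp3' : (p : ℤ) = 3 := by
        have hj0 : 0 < j := by
          by_contra hcon
          have : j ≤ 0 := by omega
          nlinarith
        nlinarith
      rw [hp3'] at hE
      obtain ⟨c', rfl⟩ : ∃ c', c = c' + 1 := ⟨c - 1, by omega⟩
      rw [pow_succ] at hE
      norm_num at hE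
      omega
    · apply six hp hp2 (c := c)
      have h2 : ((p : ℤ) - 1) * 2 ^ c = ((p : ℤ) - 1) * (2 + p + (p : ℤ) ^ 2 + (p : ℤ) ^ 3 +
          (p : ℤ) ^ 4 + (p : ℤ) ^ 5 + (p : ℤ) ^ 6) := by
        linear_combination hE
      exact mul_left_cancel₀ (by linarith) h2
  · have hap : a = p := by linarith
    subst hap
    have h2 : (0 : ℤ) < (p : ℤ) ^ 6 := by positivity
    have h3 : (p : ℤ) * ((p : ℤ) ^ 6 + δ) = 0 := by linear_combination -hE
    have h4 : (1 : ℤ) < (p : ℤ) ^ 6 := by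
      calc (1 : ℤ) < 3 ^ 6 := by norm_num
        _ ≤ (p : ℤ) ^ 6 := pow_le_pow_left₀ (by norm_num) hpZ 6
    rcases mul_eq_zero.mp h3 with h5 | h5
    · linarith
    · rcases hδ with h | h <;> rw [h] at h5 <;> linarith

end Pool.Agent.DS
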