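import Pool.Agent.DS.Basics

namespace Pool.Agent.DS

open Finset Polynomial

variable {G : Type*} [AddCommGroup G] [Fintype G]

/-- The Fourier coefficient at a power of a character, when it is an integer. -/
theorem ft_pow {f : G → ℤ} {χ : AddChar G ℂ} {z : ℤ} (h : ft f χ = z) (t : ℕ)
    (ht : t.Coprime (Fintype.card G)) : ∑ g, (f g : ℂ) * χ (t • g) = z := by
  classical
  have hv : Fintype.card G ≠ 0 := Fintype.card_ne_zero
  have hζ := Complex.isPrimitiveRoot_exp (Fintype.card G) hv
  obtain ⟨ζ, hζe⟩ : ∃ ζ : ℂ, ζ = Complex.exp (2 * Real.pi * Complex.I / (Fintype.card G : ℂ)) :=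
    ⟨_, rfl⟩
  rw [← hζe] at hζ
  have hroot : ∀ g : G, ∃ i < Fintype.card G, ζ ^ i = χ g := by
    intro g
    have : NeZero (Fintype.card G) := ⟨hv⟩
    apply hζ.eq_pow_of_pow_eq_one
    rw [← AddChar.map_nsmul_eq_pow, card_nsmul_eq_zero, AddChar.map_zero_eq_one]
  choose e _ he using hroot
  let P : ℤ[X] := ∑ g, C (f g) * X ^ e g - C z
  have haev : ∀ w : ℂ, aeval w P = ∑ g, (f g : ℂ) * w ^ e g - z := by
    intro w
    simp [P, map_sub, map_sum]
  have h0 : aeval ζ P = 0 := by
    rw [haev, sub_eq_zero, ← h]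
    unfold ft
    exact sum_congr rfl fun g _ => by rw [he]
  have hint : IsIntegral ℤ ζ := hζ.isIntegral (Nat.pos_of_ne_zero hv)
  have hdvd : minpoly ℤ ζ ∣ P := minpoly.isIntegrallyClosed_dvd hint h0
  rw [hζ.minpoly_eq_pow_coprime ht] at hdvd
  have h1 : aeval (ζ ^ t) P = 0 := by
    obtain ⟨Q, hQ⟩ := hdvd
    rw [hQ, map_mul, minpoly.aeval, zero_mul]
  rw [haev, sub_eq_zero] at h1
  rw [← h1]
  refine sum_congr rfl fun g _ => ?_
  rw [AddChar.map_nsmul_eq_pow, ← he g, ← pow_mul, ← pow_mul, mul_comm (e g) t]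

/-- A function with integral Fourier coefficients at nontrivial characters is invariant under
multiplication by integers prime to `|G|`. -/
theorem Flat.rat {f : G → ℤ} {N : ℕ} (h : Flat f N) (t : ℕ) (ht : t.Coprime (Fintype.card G))
    (g : G) : f (t • g) = f g := by
  classical
  have hcop : (Nat.card G).Coprime t := by rw [Nat.card_eq_fintype_card]; exact ht.symm
  have he : ∀ x : G, nsmulCoprime hcop x = t • x := fun x => rfl
  have hs : ∀ x : G, (nsmulCoprime hcop).symm (t • x) = x := fun x => by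
    rw [← he, Equiv.symm_apply_apply]
  have hft : ∀ χ : AddChar G ℂ, ft (fun x => f ((nsmulCoprime hcop).symm x)) χ = ft f χ := by
    intro χ
    have h1 : ft (fun x => f ((nsmulCoprime hcop).symm x)) χ = ∑ x, (f x : ℂ) * χ (t • x) := by
      unfold ft
      rw [← Equiv.sum_comp (nsmulCoprime hcop)]
      refine sum_congr rfl fun x _ => ?_
      simp only [he, hs]
    rw [h1]
    by_cases hχ : χ = 0
    · subst hχ
      unfold ft
      refine sum_congr rfl fun x _ => ?_
      simp
    · rcases h χ hχ with h2 | h2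
      · have h3 : ft f χ = ((N : ℤ) : ℂ) := by rw [h2]; simp
        rw [ft_pow h3 t ht, h3]
      · have h3 : ft f χ = ((-(N : ℤ) : ℤ) : ℂ) := by rw [h2]; simp
        rw [ft_pow h3 t ht, h3]
  have h1 := ft_inv (fun x => f ((nsmulCoprime hcop).symm x)) (t • g)
  have h2 := ft_inv f (t • g)
  simp only [hft] at h1
  rw [← h2] at h1
  have h3 : (Fintype.card G : ℂ) ≠ 0 := Nat.cast_ne_zero.2 Fintype.card_ne_zero
  have h4 := mul_left_cancel₀ h3 h1
  rw [hs] at h4
  exact_mod_cast h4.symm

end Pool.Agent.DS
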