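import Pool.Agent.DS.Basics
import Pool.Agent.DS.Rat

namespace Pool.Agent.DS

open Finset

variable {Q L : Type*} [AddCommGroup Q] [Fintype Q] [AddCommGroup L] [Fintype L]

/-- The character `(q, l) ↦ χ q * θ l`. -/
noncomputable def pchar (χ : AddChar Q ℂ) (θ : AddChar L ℂ) : AddChar (Q × L) ℂ :=
  χ.compAddMonoidHom (AddMonoidHom.fst Q L) + θ.compAddMonoidHom (AddMonoidHom.snd Q L)

@[simp] theorem pchar_apply (χ : AddChar Q ℂ) (θ : AddChar L ℂ) (x : Q × L) :
    pchar χ θ x = χ x.1 * θ x.2 := by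
  simp [pchar]

theorem pchar_ne_left {χ : AddChar Q ℂ} (h : χ ≠ 0) (θ : AddChar L ℂ) : pchar χ θ ≠ 0 := by
  intro h0
  apply h
  ext q
  have := DFunLike.congr_fun h0 (q, 0)
  simpa using this

theorem pchar_ne_right (χ : AddChar Q ℂ) {θ : AddChar L ℂ} (h : θ ≠ 0) : pchar χ θ ≠ 0 := by
  intro h0
  apply h
  ext l
  have := DFunLike.congr_fun h0 (0, l)
  simpa using this

/-- Projection to `Q`. -/
theorem ft_proj (f : Q × L → ℤ) (χ : AddChar Q ℂ) :
    ft (fun q => ∑ l, f (q, l)) χ = ft f (pchar χ 0) := by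
  unfold ft
  rw [Fintype.sum_prod_type]
  refine Finset.sum_congr rfl fun q _ => ?_
  push_cast
  rw [Finset.sum_mul]
  refine Finset.sum_congr rfl fun l _ => ?_
  simp

/-- Restriction to the slice `l`. -/
theorem ft_slice (f : Q × L → ℤ) (χ : AddChar Q ℂ) (l : L) :
    (Fintype.card L : ℂ) * ft (fun q => f (q, l)) χ =
      ∑ θ : AddChar L ℂ, ft f (pchar χ θ) * θ (-l) := by
  classical
  unfold ft
  have h1 : ∀ θ : AddChar L ℂ, (∑ x : Q × L, (f x : ℂ) * pchar χ θ x) * θ (-l) =
      ∑ q, ∑ m, (f (q, m) : ℂ) * χ q * θ (m + -l) := by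
    intro θ
    rw [Fintype.sum_prod_type, Finset.sum_mul]
    refine Finset.sum_congr rfl fun q _ => ?_
    rw [Finset.sum_mul]
    refine Finset.sum_congr rfl fun m _ => ?_
    rw [pchar_apply, AddChar.map_add_eq_mul]
    ring
  simp only [h1]
  rw [Finset.sum_comm, Finset.mul_sum]
  refine Finset.sum_congr rfl fun q _ => ?_
  rw [Finset.sum_comm]
  simp only [← Finset.mul_sum, AddChar.sum_apply_eq_ite]
  have h2 : ∀ m : L, (f (q, m) : ℂ) * χ q * (if m + -l = 0 then (Fintype.card L : ℂ) else 0) =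
      if m = l then (Fintype.card L : ℂ) * ((f (q, l) : ℂ) * χ q) else 0 := by
    intro m
    by_cases hm : m = l
    · subst hm
      simp [mul_comm]
    · have : ¬ (m + -l = 0) := by
        rwa [← sub_eq_add_neg, sub_eq_zero]
      simp [hm, this]
  simp [h2]

theorem Flat.proj {f : Q × L → ℤ} {N : ℕ} (h : Flat f N) : Flat (fun q => ∑ l, f (q, l)) N := by
  intro χ hχ
  rw [ft_proj]
  exact h _ (pchar_ne_left hχ 0)

/-- The sign of a Fourier coefficient. -/
theorem Flat.sign {G : Type*} [AddCommGroup G] [Fintype G] {f : G → ℤ} {N : ℕ} (h : Flat f N) :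
    ∃ e : AddChar G ℂ → ℤ, (∀ χ, e χ = 1 ∨ e χ = -1) ∧
      ∀ χ, χ ≠ 0 → ft f χ = (N : ℂ) * (e χ : ℂ) := by
  classical
  refine ⟨fun χ => if ft f χ = N then 1 else -1, fun χ => ?_, fun χ hχ => ?_⟩
  · by_cases h1 : ft f χ = N <;> simp [h1]
  · by_cases h1 : ft f χ = N
    · simp [h1]
    · rcases h χ hχ with h2 | h2
      · exact absurd h2 h1
      · simp [h1, h2]

theorem odd_sum_sign {ι : Type*} (s : Finset ι) (e : ι → ℤ) (he : ∀ i, e i = 1 ∨ e i = -1)
    (hs : Odd s.card) : Odd (∑ i ∈ s, e i) := by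
  have h1 : (∑ i ∈ s, e i) = ∑ i ∈ s, (e i - 1) + s.card := by
    rw [Finset.sum_sub_distrib]
    simp
  rw [h1]
  apply Even.add_odd
  · apply Finset.even_sum
    intro i _
    rcases he i with h | h <;> rw [h] <;> decide
  · exact_mod_cast hs

/-- Fourier coefficients of the restriction to `Q`. -/
theorem ft_restrict {f : Q × L → ℤ} (hodd : Odd (Fintype.card L)) {NL N' : ℕ}
    (h2 : N'.Coprime (Fintype.card L)) (hNL : 0 < NL) (hF : Flat f (NL * N'))
    {χ : AddChar Q ℂ} (hχ : χ ≠ 0) :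
    ∃ z : ℤ, ft (fun q => f (q, 0)) χ = z ∧ (N' : ℤ) ≤ |z| := by
  classical
  obtain ⟨e, he, he2⟩ := hF.sign
  have h1 := ft_slice f χ 0
  simp only [neg_zero, AddChar.map_zero_eq_one, mul_one] at h1
  have h3 : ∑ θ : AddChar L ℂ, ft f (pchar χ θ) =
      (((NL * N' : ℕ) : ℤ) * ∑ θ : AddChar L ℂ, e (pchar χ θ) : ℤ) := by
    push_cast
    rw [Finset.mul_sum]
    refine Finset.sum_congr rfl fun θ _ => ?_
    rw [he2 _ (pchar_ne_left hχ θ)]
    push_cast
    ring
  rw [h3] at h1
  set o : ℤ := ∑ θ : AddChar L ℂ, e (pchar χ θ) with ho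
  have hoo : Odd o := by
    apply odd_sum_sign
    · intro i
      exact he _
    · rw [Finset.card_univ, AddChar.card_eq]
      exact hodd
  obtain ⟨z, hz, hz2⟩ := int_of_isIntegral (isIntegral_ft (fun q => f (q, 0)) χ)
    (b := (Fintype.card L : ℤ)) (a := ((NL * N' : ℕ) : ℤ) * o)
    (by exact_mod_cast (Fintype.card_pos (α := L)).ne') (by exact_mod_cast h1)
  refine ⟨z, hz, ?_⟩
  have h4 : (N' : ℤ) ∣ (Fintype.card L : ℤ) * z := by
    rw [hz2]
    push_cast
    exact ⟨NL * o, by ring⟩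
  have h5 : IsCoprime (N' : ℤ) (Fintype.card L : ℤ) := Nat.isCoprime_iff_coprime.mpr h2
  have h6 : (N' : ℤ) ∣ z := h5.dvd_of_dvd_mul_left h4
  have h7 : z ≠ 0 ∨ N' = 0 := by
    by_contra hcon
    push Not at hcon
    obtain ⟨h8, h9⟩ := hcon
    rw [h8, mul_zero] at hz2
    have : ((NL * N' : ℕ) : ℤ) ≠ 0 := by
      exact_mod_cast (Nat.mul_ne_zero hNL.ne' h9)
    rcases mul_eq_zero.mp hz2.symm with h10 | h10
    · exact this h10
    · rw [h10] at hoo
      exact absurd hoo (by decide)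
  rcases h7 with h7 | h7
  · have := Int.le_of_dvd (abs_pos.mpr h7) ((dvd_abs _ _).mpr h6)
    exact this
  · rw [h7]
    simp

theorem nsmul_congr {A : Type*} [AddCommGroup A] [Fintype A] {t s : ℕ}
    (h : t ≡ s [MOD Fintype.card A]) (x : A) : t • x = s • x := by
  rw [nsmul_eq_nsmul_iff_modEq]
  exact h.of_dvd (addOrderOf_dvd_card)

theorem eq_zero_of_neg_eq {A : Type*} [AddCommGroup A] [Fintype A] (hodd : Odd (Fintype.card A))
    {x : A} (h : -x = x) : x = 0 := by
  have h1 : 2 • x = 0 := by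
    rw [two_nsmul]
    nth_rewrite 1 [← h]
    simp
  have h2 : addOrderOf x ∣ 2 := addOrderOf_dvd_of_nsmul_eq_zero h1
  have h3 : addOrderOf x ∣ Fintype.card A := addOrderOf_dvd_card
  have h4 : addOrderOf x ∣ 1 := by
    have : Nat.gcd 2 (Fintype.card A) = 1 := (Nat.coprime_two_left).mpr hodd
    rw [← this]
    exact Nat.dvd_gcd h2 h3
  have h5 : addOrderOf x = 1 := Nat.dvd_one.mp h4
  exact AddMonoid.addOrderOf_eq_one_iff.mp h5

/-- Parity: the number of points over `q` is odd iff `f (q, 0) = 1`. -/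
theorem parity {f : Q × L → ℤ} {N : ℕ} (hF : Flat f N) (hodd : Odd (Fintype.card L))
    (hcop : (Fintype.card Q).Coprime (Fintype.card L)) (q : Q) :
    Even (∑ l, f (q, l) - f (q, 0)) := by
  classical
  -- `f (q, -l) = f (q, l)`
  have hsym : ∀ l : L, f (q, -l) = f (q, l) := by
    intro l
    obtain ⟨t, ht1, ht2⟩ := Nat.chineseRemainder hcop 1 (Fintype.card L - 1)
    have hL : 0 < Fintype.card L := Fintype.card_pos
    have htQ : t.Coprime (Fintype.card Q) := by
      have := ht1.gcd_eq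
      simpa [Nat.Coprime] using this
    have htL : t.Coprime (Fintype.card L) := by
      have h1 := ht2.gcd_eq
      have h2 : Nat.gcd (Fintype.card L - 1) (Fintype.card L) = 1 := by
        have := Nat.coprime_self_sub_right (n := Fintype.card L) (m := 1) hL
        have h3 : (Fintype.card L - 1).Coprime (Fintype.card L) := by
          rw [Nat.coprime_comm]
          exact this.mpr (Nat.coprime_one_right _)
        exact h3
      unfold Nat.Coprime
      rw [h1, h2]
    have h := hF.rat t (by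
      rw [Fintype.card_prod]
      exact Nat.Coprime.mul_right htQ htL) (q, l)
    have h3 : t • (q, l) = (q, -l) := by
      apply Prod.ext
      · simp only [Prod.smul_mk]
        rw [nsmul_congr ht1 q, one_nsmul]
      · simp only [Prod.smul_mk]
        rw [nsmul_congr ht2 l]
        have h4 : (Fintype.card L - 1) • l + l = 0 := by
          rw [← succ_nsmul, Nat.sub_add_cancel hL]
          exact card_nsmul_eq_zero
        exact eq_neg_of_add_eq_zero_left h4
    rw [h3] at h
    exact h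
  have h1 : ∑ l, f (q, l) - f (q, 0) = ∑ l ∈ (univ : Finset L).erase 0, f (q, l) := by
    rw [← Finset.add_sum_erase _ _ (Finset.mem_univ (0 : L))]
    ring
  rw [h1, even_iff_two_dvd]
  have h2 := (ZMod.intCast_zmod_eq_zero_iff_dvd (∑ l ∈ (univ : Finset L).erase 0, f (q, l)) 2).mp
  push_cast at h2
  apply h2
  apply Finset.sum_involution (fun l _ => -l)
  · intro l _
    rw [hsym l]
    exact CharTwo.add_self_eq_zero _
  · intro l hl _ h2
    exact (Finset.ne_of_mem_erase hl) (eq_zero_of_neg_eq hodd h2)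
  · intro l _
    exact neg_neg l
  · intro l hl
    exact Finset.mem_erase.mpr ⟨neg_ne_zero.mpr (Finset.ne_of_mem_erase hl), Finset.mem_univ _⟩

/-- The theorem on sub-difference sets. -/
theorem sub (f : Q × L → ℤ) (hf : Ind f) (hodd : Odd (Fintype.card L))
    (hcop : (Fintype.card Q).Coprime (Fintype.card L)) (NL N' : ℕ) (h1 : NL.Coprime (Fintype.card Q))
    (h2 : N'.Coprime (Fintype.card L)) (hNL : 0 < NL) (hF : Flat f (NL * N')) :
    Flat (fun q => f (q, 0)) N' ∧
      ∀ q q', (∑ l, f (q, l) - ∑ l, f (q', l)) ^ 2 = (NL : ℤ) ^ 2 * (f (q, 0) - f (q', 0)) ^ 2 := by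
  classical
  set F : Q → ℤ := fun q => ∑ l, f (q, l) with hFdef
  set f0 : Q → ℤ := fun q => f (q, 0) with hf0
  have hFflat : Flat F (NL * N') := hF.proj
  have hVF := hFflat.V_eq
  -- the pointwise inequality
  have hpt : ∀ q q', (NL : ℤ) ^ 2 * (f0 q - f0 q') ^ 2 ≤ (F q - F q') ^ 2 := by
    intro q q'
    have hp1 := parity hF hodd hcop q
    have hp2 := parity hF hodd hcop q'
    have hdiv : (NL : ℤ) ∣ F q - F q' := by
      have h3 := hFflat.dvd q q'
      have h4 : IsCoprime (NL : ℤ) (Fintype.card Q : ℤ) := Nat.isCoprime_iff_coprime.mpr h1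
      apply h4.dvd_of_dvd_mul_left
      refine dvd_trans ?_ h3
      push_cast
      exact dvd_mul_right _ _
    by_cases heq : f0 q = f0 q'
    · rw [heq]
      simp only [sub_self, ne_eq, OfNat.ofNat_ne_zero, not_false_eq_true, zero_pow, mul_zero]
      positivity
    · have hsq : (f0 q - f0 q') ^ 2 = 1 := by
        rcases hf (q, 0) with h3 | h3 <;> rcases hf (q', 0) with h4 | h4 <;>
          first | (exact absurd (h3.trans h4.symm) heq) | (simp only [hf0, h3, h4]; norm_num)
      rw [hsq, mul_one]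
      have hne : F q - F q' ≠ 0 := by
        intro h0
        have h5 : Even (f0 q - f0 q') := by
          have h6 : f0 q - f0 q' = (F q - F q') - (F q - f0 q) + (F q' - f0 q') := by ring
          have h8 : (0 : ℤ) - (F q - f0 q) + (F q' - f0 q') =
              (F q' - f0 q') - (F q - f0 q) := by ring
          rw [h6, h0, h8]
          exact hp2.sub hp1
        have h7 : Odd (f0 q - f0 q') := by
          rcases hf (q, 0) with h3 | h3 <;> rcases hf (q', 0) with h4 | h4 <;>
            first | (exact absurd (h3.trans h4.symm) heq) | (simp only [hf0, h3, h4]; decide)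
        exact (Int.not_odd_iff_even.mpr h5) h7
      have h8 : (NL : ℤ) ≤ |F q - F q'| :=
        Int.le_of_dvd (abs_pos.mpr hne) ((dvd_abs _ _).mpr hdiv)
      rw [← sq_abs (F q - F q')]
      exact pow_le_pow_left₀ (by positivity) h8 2
  have hres : ∀ χ : AddChar Q ℂ, χ ≠ 0 → ∃ z : ℤ, ft f0 χ = z ∧ (N' : ℤ) ≤ |z| :=
    fun χ hχ => ft_restrict hodd h2 hNL hF hχ
  have hVge := V_ge hres
  have hsum : (NL : ℤ) ^ 2 * (2 * V f0) ≤ 2 * V F := by
    rw [V_pair, V_pair, Finset.mul_sum]
    refine Finset.sum_le_sum fun q _ => ?_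
    rw [Finset.mul_sum]
    exact Finset.sum_le_sum fun q' _ => hpt q q'
  have hNLpos : (0 : ℤ) < (NL : ℤ) ^ 2 := by positivity
  have hVle : V f0 ≤ (N' : ℤ) ^ 2 * ((Fintype.card Q : ℤ) - 1) := by
    have h3 : (NL : ℤ) ^ 2 * V f0 ≤ (NL : ℤ) ^ 2 * ((N' : ℤ) ^ 2 * ((Fintype.card Q : ℤ) - 1)) := by
      have h4 : V F = (NL : ℤ) ^ 2 * ((N' : ℤ) ^ 2 * ((Fintype.card Q : ℤ) - 1)) := by
        rw [hVF]
        push_cast
        ring
      linarith
    exact le_of_mul_le_mul_left h3 hNLpos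
  refine ⟨flat_of_V hres hVle, ?_⟩
  -- equality everywhere
  have hV0 : V f0 = (N' : ℤ) ^ 2 * ((Fintype.card Q : ℤ) - 1) := le_antisymm hVle hVge
  have heq : ∑ q, ∑ q', (NL : ℤ) ^ 2 * (f0 q - f0 q') ^ 2 = ∑ q, ∑ q', (F q - F q') ^ 2 := by
    simp only [← Finset.mul_sum]
    rw [← V_pair, ← V_pair, hV0, hVF]
    push_cast
    ring
  intro q q'
  have h3 := (Finset.sum_eq_sum_iff_of_le (fun q _ => Finset.sum_le_sum
    fun q' _ => hpt q q')).mp heq q (Finset.mem_univ _)
  have h4 := (Finset.sum_eq_sum_iff_of_le (fun q' _ => hpt q q')).mp h3 q' (Finset.mem_univ _)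
  exact h4.symm

theorem Ind.V_eq {G : Type*} [AddCommGroup G] [Fintype G] {f : G → ℤ} (hf : Ind f) :
    V f = (∑ g, f g) * ((Fintype.card G : ℤ) - ∑ g, f g) := by
  have h : ∑ g, f g ^ 2 = ∑ g, f g := by
    refine Finset.sum_congr rfl fun g _ => ?_
    rcases hf g with h | h <;> rw [h] <;> norm_num
  unfold V
  rw [h]
  ring

theorem Ind.sum_nonneg {G : Type*} [AddCommGroup G] [Fintype G] {f : G → ℤ} (hf : Ind f) :
    0 ≤ ∑ g, f g :=
  Finset.sum_nonneg fun g _ => by rcases hf g with h | h <;> rw [h] <;> norm_num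

theorem Ind.sum_le {G : Type*} [AddCommGroup G] [Fintype G] {f : G → ℤ} (hf : Ind f) :
    ∑ g, f g ≤ Fintype.card G := by
  have h : ∑ g, f g ≤ ∑ _g : G, (1 : ℤ) := by
    refine Finset.sum_le_sum fun g _ => ?_
    rcases hf g with h | h <;> rw [h] <;> norm_num
  simpa using h

/-- A prime dividing the order of the group but not `N`. -/
theorem no_new (f : Q × L → ℤ) (hf : Ind f) (hodd : Odd (Fintype.card L)) (hL : 1 < Fintype.card L)
    (hQ : 1 < Fintype.card Q) (hcop : (Fintype.card Q).Coprime (Fintype.card L)) (N : ℕ)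
    (hN : N.Coprime (Fintype.card L)) (hN0 : 0 < N) (hF : Flat f N) : N = 1 := by
  classical
  have hF' : Flat f (1 * N) := by rwa [one_mul]
  obtain ⟨h0flat, -⟩ := sub f hf hodd hcop 1 N (Nat.coprime_one_left _) hN one_pos hF'
  obtain ⟨e, he, he2⟩ := hF.sign
  have hNC : (N : ℂ) ≠ 0 := by exact_mod_cast hN0.ne'
  -- the slices `l ≠ 0` are constant
  have hconst : ∀ l : L, l ≠ 0 → ∀ q q' : Q, f (q, l) = f (q', l) := by
    intro l hl q q'
    refine const_of_ft (f := fun q => f (q, l)) ?_ q q'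
    intro χ hχ
    have h1 := ft_slice f χ 0
    simp only [neg_zero, AddChar.map_zero_eq_one, mul_one] at h1
    have h3 : ∑ θ : AddChar L ℂ, ft f (pchar χ θ) =
        (N : ℂ) * ((∑ θ : AddChar L ℂ, e (pchar χ θ) : ℤ) : ℂ) := by
      push_cast
      rw [Finset.mul_sum]
      refine Finset.sum_congr rfl fun θ _ => ?_
      rw [he2 _ (pchar_ne_left hχ θ)]
    rw [h3] at h1
    -- there is a common sign
    obtain ⟨σ, hσ, hσ2⟩ : ∃ σ : ℤ, (σ = 1 ∨ σ = -1) ∧ ft (fun q => f (q, 0)) χ = (N : ℂ) * σ := by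
      rcases h0flat χ hχ with h4 | h4
      · exact ⟨1, Or.inl rfl, by rw [h4]; simp⟩
      · exact ⟨-1, Or.inr rfl, by rw [h4]; simp⟩
    rw [hσ2] at h1
    have h5 : (∑ θ : AddChar L ℂ, e (pchar χ θ) : ℤ) = (Fintype.card L : ℤ) * σ := by
      have h6 : (N : ℂ) * ((∑ θ : AddChar L ℂ, e (pchar χ θ) : ℤ) : ℂ) =
          (N : ℂ) * (((Fintype.card L : ℤ) * σ : ℤ) : ℂ) := by
        rw [← h1]
        push_cast
        ring
      exact_mod_cast mul_left_cancel₀ hNC h6
    have hσσ : σ * σ = 1 := by rcases hσ with h | h <;> rw [h] <;> norm_num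
    have h7 : ∑ θ : AddChar L ℂ, (1 - σ * e (pchar χ θ)) = 0 := by
      rw [Finset.sum_sub_distrib, ← Finset.mul_sum, h5]
      simp only [Finset.sum_const, Finset.card_univ, AddChar.card_eq, nsmul_eq_mul, mul_one]
      linear_combination (-(Fintype.card L : ℤ)) * hσσ
    have h8 : ∀ θ ∈ (univ : Finset (AddChar L ℂ)), 0 ≤ 1 - σ * e (pchar χ θ) := by
      intro θ _
      rcases hσ with h | h <;> rcases he (pchar χ θ) with h' | h' <;> rw [h, h'] <;> norm_num
    have h9 := (Finset.sum_eq_zero_iff_of_nonneg h8).mp h7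
    have h10 : ∀ θ : AddChar L ℂ, e (pchar χ θ) = σ := by
      intro θ
      have := h9 θ (Finset.mem_univ _)
      linear_combination (-σ) * this - (e (pchar χ θ)) * hσσ
    have h11 := ft_slice f χ l
    have h12 : ∑ θ : AddChar L ℂ, ft f (pchar χ θ) * θ (-l) = 0 := by
      have : ∀ θ : AddChar L ℂ, ft f (pchar χ θ) * θ (-l) = (N : ℂ) * σ * θ (-l) := by
        intro θ
        rw [he2 _ (pchar_ne_left hχ θ), h10 θ]
      simp only [this]
      rw [← Finset.mul_sum, AddChar.sum_apply_eq_zero_iff_ne_zero.mpr (neg_ne_zero.mpr hl),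
        mul_zero]
    rw [h12] at h11
    rcases mul_eq_zero.mp h11 with h13 | h13
    · exact absurd h13 (by exact_mod_cast (Fintype.card_pos (α := L)).ne')
    · exact h13
  -- a nontrivial character of `L`
  obtain ⟨l0, hl0⟩ := Fintype.exists_ne_of_one_lt_card hL (0 : L)
  obtain ⟨θ, hθ⟩ := AddChar.exists_apply_ne_zero.mpr hl0
  have hθ0 : θ ≠ 0 := by
    intro h
    apply hθ
    rw [h]
    simp
  set k0 : ℤ := ∑ q, f (q, 0) with hk0
  set X : ℂ := ∑ l ∈ (univ : Finset L).erase 0, (f (0, l) : ℂ) * θ l with hX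
  have h1 : ft f (pchar 0 θ) = k0 + (Fintype.card Q : ℂ) * X := by
    unfold ft
    rw [Fintype.sum_prod_type, Finset.sum_comm, ← Finset.add_sum_erase _ _
      (Finset.mem_univ (0 : L))]
    congr 1
    · rw [hk0]
      push_cast
      exact Finset.sum_congr rfl fun q _ => by simp
    · rw [hX, Finset.mul_sum]
      refine Finset.sum_congr rfl fun l hl => ?_
      have h2 : ∀ q : Q, (f (q, l) : ℂ) * pchar 0 θ (q, l) = (f (0, l) : ℂ) * θ l := by
        intro q
        rw [pchar_apply, hconst l (Finset.ne_of_mem_erase hl) q 0]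
        simp
      rw [Finset.sum_congr rfl fun q _ => h2 q, Finset.sum_const, Finset.card_univ, nsmul_eq_mul]
  have hXint : IsIntegral ℤ X := by
    apply IsIntegral.sum
    intro l _
    exact (isIntegral_algebraMap (R := ℤ) (x := f (0, l))).mul (isIntegral_char θ _)
  obtain ⟨ε, hε, hε2⟩ : ∃ ε : ℤ, (ε = 1 ∨ ε = -1) ∧ ft f (pchar 0 θ) = (N : ℂ) * ε := by
    rcases hF _ (pchar_ne_right 0 hθ0) with h4 | h4
    · exact ⟨1, Or.inl rfl, by rw [h4]; simp⟩
    · exact ⟨-1, Or.inr rfl, by rw [h4]; simp⟩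
  obtain ⟨z, -, hz⟩ := int_of_isIntegral hXint (b := (Fintype.card Q : ℤ)) (a := N * ε - k0)
    (by exact_mod_cast (Fintype.card_pos (α := Q)).ne') (by
      push_cast
      rw [hε2] at h1
      linear_combination -h1)
  -- arithmetic
  have hI0 : Ind (fun q => f (q, 0)) := fun q => hf (q, 0)
  have hV1 := hI0.V_eq
  have hV2 := h0flat.V_eq
  rw [hV1] at hV2
  have hk0n : 0 ≤ k0 := hI0.sum_nonneg
  have hk0l : k0 ≤ Fintype.card Q := hI0.sum_le
  simp only [← hk0] at hV2
  generalize (Fintype.card Q) = q at *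
  have hq : (2 : ℤ) ≤ q := by exact_mod_cast hQ
  have hNn : (1 : ℤ) ≤ N := by exact_mod_cast hN0
  have hNq : (N : ℤ) < q := by
    by_contra hcon
    have hcon' : (q : ℤ) ≤ N := not_lt.mp hcon
    nlinarith [sq_nonneg (2 * k0 - q)]
  suffices h : (N : ℤ) = 1 by exact_mod_cast h
  rcases hε with hε | hε
  · subst hε
    have hz0 : z = 0 := by
      have h2 : z < 1 := by
        by_contra h3
        have : (1 : ℤ) ≤ z := not_lt.mp h3
        nlinarith
      have h3 : -1 < z := by
        by_contra h3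
        have : z ≤ -1 := not_lt.mp h3
        nlinarith
      omega
    subst hz0
    have hk : k0 = N := by linarith
    rw [hk] at hV2
    have h5 : (N : ℤ) * ((q : ℤ) * (N - 1)) = 0 := by linear_combination -hV2
    rcases mul_eq_zero.mp h5 with h6 | h6
    · omega
    · rcases mul_eq_zero.mp h6 with h7 | h7 <;> omega
  · subst hε
    have hz0 : z = -1 := by
      have h2 : z < 0 := by
        by_contra h3
        have : (0 : ℤ) ≤ z := not_lt.mp h3
        nlinarith
      have h3 : -2 < z := by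
        by_contra h3
        have : z ≤ -2 := not_lt.mp h3
        nlinarith
      omega
    subst hz0
    have hk : k0 = q - N := by linarith
    rw [hk] at hV2
    have h5 : (N : ℤ) * ((q : ℤ) * (N - 1)) = 0 := by linear_combination -hV2
    rcases mul_eq_zero.mp h5 with h6 | h6
    · omega
    · rcases mul_eq_zero.mp h6 with h7 | h7 <;> omega

end Pool.Agent.DS
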