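import Pool.Agent.DS.Basics
import Pool.Agent.DS.Sub

namespace Pool.Agent.DS

open Finset

theorem pow_le_of_dvd_mul_succ {T x m : ℤ} {e : ℕ} (hT : T = 2 ^ e) (hm : 1 ≤ m)
    (h : x * (x + 1) = T * m) : T ≤ m + 1 := by
  have hTpos : 0 < T := by rw [hT]; positivity
  have hpos : 0 < x * (x + 1) := by rw [h]; positivity
  have hdiv : (2 : ℤ) ^ e ∣ x * (x + 1) := ⟨m, by rw [h, hT]⟩
  have hor : T ∣ x ∨ T ∣ x + 1 := by
    rcases Int.even_or_odd x with hx | hx
    · left
      have h1 : ¬ (2 : ℤ) ∣ x + 1 := by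
        rw [Int.two_dvd_ne_zero]
        obtain ⟨y, hy⟩ := hx
        omega
      have := Int.prime_two.pow_dvd_of_dvd_mul_right e h1 hdiv
      rwa [hT]
    · right
      have h1 : ¬ (2 : ℤ) ∣ x := by
        obtain ⟨y, hy⟩ := hx
        omega
      have := Int.prime_two.pow_dvd_of_dvd_mul_left e h1 hdiv
      rwa [hT]
  have hkey : T * (T - 1) ≤ x * (x + 1) := by
    rcases lt_or_ge x 0 with hx | hx
    · have hx1 : x + 1 < 0 := by
        by_contra hcon
        have : x + 1 = 0 := by omega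
        rw [this] at hpos
        simp at hpos
      have h2 : T ≤ -x := by
        rcases hor with h3 | h3
        · exact Int.le_of_dvd (by omega) ((dvd_neg).mpr h3)
        · have := Int.le_of_dvd (by omega) ((dvd_neg).mpr h3)
          omega
      nlinarith
    · have hx0 : 0 < x := by
        rcases hx.eq_or_lt with h3 | h3
        · rw [← h3] at hpos
          simp at hpos
        · exact h3
      have h2 : T ≤ x + 1 := by
        rcases hor with h3 | h3
        · have := Int.le_of_dvd hx0 h3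
          omega
        · exact Int.le_of_dvd (by omega) h3
      nlinarith
  rw [h] at hkey
  have := le_of_mul_le_mul_left hkey hTpos
  omega

/-- Arithmetic of Menon parameters in `2`-groups. -/
theorem two_arith {c a : ℕ} (hc : 1 ≤ c) (ha : 1 ≤ a) {k : ℤ}
    (h : k * (2 ^ c - k) = 4 ^ a * (2 ^ c - 1)) : c = 2 * a + 2 := by
  obtain ⟨w, hw⟩ : ∃ w : ℤ, w = 2 ^ c - 2 * k := ⟨_, rfl⟩
  have h1 : w ^ 2 = (2 ^ c) ^ 2 - 4 ^ (a + 1) * (2 ^ c - 1) := by
    rw [hw, pow_succ 4 a]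
    linear_combination (-4) * h
  have hT2 : (2 : ℤ) ≤ 2 ^ c := by
    calc (2 : ℤ) = 2 ^ 1 := by norm_num
      _ ≤ 2 ^ c := pow_le_pow_right₀ (by norm_num) hc
  have hc2 : 2 * a + 2 ≤ c := by
    by_contra hcon
    have hc3 : c ≤ 2 * a + 1 := by omega
    have h2 : (2 : ℤ) * 2 ^ c ≤ 4 ^ (a + 1) := by
      have h3 : (4 : ℤ) ^ (a + 1) = 2 * 2 ^ (2 * a + 1) := by
        rw [show (4 : ℤ) = 2 ^ 2 by norm_num, ← pow_mul]
        ring
      rw [h3]
      have := pow_le_pow_right₀ (a := (2 : ℤ)) (by norm_num) hc3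
      linarith
    have h16 : (16 : ℤ) ≤ 4 ^ (a + 1) := by
      calc (16 : ℤ) = 4 ^ 2 := by norm_num
        _ ≤ 4 ^ (a + 1) := pow_le_pow_right₀ (by norm_num) (by omega)
    have h0 : 0 ≤ w ^ 2 := sq_nonneg w
    rcases hT2.eq_or_lt with h4 | h4
    · rw [← h4] at h1
      nlinarith
    · nlinarith
  obtain ⟨u, hu⟩ : ∃ u, c = 2 * a + 2 + u := ⟨c - (2 * a + 2), by omega⟩
  rcases Nat.eq_zero_or_pos u with hu0 | hu0
  · omega
  exfalso
  have h4a : (4 : ℤ) ^ (a + 1) = (2 ^ (a + 1)) ^ 2 := by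
    rw [show (4 : ℤ) = 2 ^ 2 by norm_num, ← pow_mul, ← pow_mul]
    ring
  have hTT : ((2 : ℤ) ^ c) ^ 2 = (2 ^ (a + 1)) ^ 2 * (2 ^ c * 2 ^ u) := by
    rw [hu]
    ring
  have h5 : w ^ 2 = (2 ^ (a + 1)) ^ 2 * (2 ^ c * 2 ^ u - (2 ^ c - 1)) := by
    rw [h1, h4a, hTT]
    ring
  have h6 : (2 : ℤ) ^ (a + 1) ∣ w := by
    have : ((2 : ℤ) ^ (a + 1)) ^ 2 ∣ w ^ 2 := ⟨_, h5⟩
    exact (Int.pow_dvd_pow_iff two_ne_zero).mp this
  obtain ⟨w', hw'⟩ := h6
  have h7 : w' ^ 2 = 2 ^ c * 2 ^ u - (2 ^ c - 1) := by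
    have h8 : ((2 : ℤ) ^ (a + 1)) ^ 2 * w' ^ 2 =
        (2 ^ (a + 1)) ^ 2 * (2 ^ c * 2 ^ u - (2 ^ c - 1)) := by
      rw [← h5, hw']
      ring
    exact mul_left_cancel₀ (by positivity) h8
  obtain ⟨d, hd⟩ : ∃ d, c = d + 2 := ⟨c - 2, by omega⟩
  have hTd : (2 : ℤ) ^ c = 4 * 2 ^ d := by
    rw [hd]
    ring
  have hodd : Odd w' := by
    have h9 : Odd (w' ^ 2) := by
      rw [h7, hTd]
      exact ⟨2 * 2 ^ d * 2 ^ u - 2 * 2 ^ d, by ring⟩
    exact (Int.odd_pow' two_ne_zero).mp h9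
  obtain ⟨x, hx⟩ := hodd
  have h10 : x * (x + 1) = 2 ^ d * (2 ^ u - 1) := by
    rw [hx, hTd] at h7
    linarith
  have h11 : (1 : ℤ) ≤ 2 ^ u - 1 := by
    have : (2 : ℤ) ^ 1 ≤ 2 ^ u := pow_le_pow_right₀ (by norm_num) hu0
    linarith
  have h12 := pow_le_of_dvd_mul_succ rfl h11 h10
  have h13 : (2 : ℤ) ^ d ≤ 2 ^ u := by linarith
  have h14 : d ≤ u := (pow_le_pow_iff_right₀ (by norm_num)).mp h13
  omega

/-- Flat `0/1`-functions on abelian `2`-groups. -/
theorem two_group {H : Type*} [AddCommGroup H] [Fintype H] {c N : ℕ} (hc : 1 ≤ c)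
    (hH : Fintype.card H = 2 ^ c) (f : H → ℤ) (hf : Ind f) (hN : 0 < N) (hF : Flat f N) :
    (N = 1 ∧ ∃ h0, ∀ h, h ≠ h0 → f h = 1 - f h0) ∨ (∃ a, 1 ≤ a ∧ N = 2 ^ a ∧ c = 2 * a + 2) := by
  classical
  have hV := hF.V_eq
  have hT2 : (2 : ℤ) ≤ 2 ^ c := by
    calc (2 : ℤ) = 2 ^ 1 := by norm_num
      _ ≤ 2 ^ c := pow_le_pow_right₀ (by norm_num) hc
  have hcard : (Fintype.card H : ℤ) = 2 ^ c := by rw [hH]; push_cast; rfl
  -- `f` is not constant
  have hne : ∃ g g', f g ≠ f g' := by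
    by_contra hcon
    push Not at hcon
    have h1 := V_pair f
    have h2 : ∑ g, ∑ g', (f g - f g') ^ 2 = 0 := by
      refine Finset.sum_eq_zero fun g _ => Finset.sum_eq_zero fun g' _ => ?_
      rw [hcon g g']
      ring
    rw [h2, hV, hcard] at h1
    have h3 : (1 : ℤ) ≤ (N : ℤ) ^ 2 := by
      have : (1 : ℤ) ≤ N := by exact_mod_cast hN
      nlinarith
    nlinarith
  obtain ⟨g, g', hgg⟩ := hne
  have hdvd := hF.dvd g g'
  have hN2 : N ∣ 2 ^ c := by
    have h1 : (N : ℤ) ∣ ((2 ^ c : ℕ) : ℤ) := by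
      rw [← hH]
      rcases hf g with h2 | h2 <;> rcases hf g' with h3 | h3
      · exact absurd (h2.trans h3.symm) hgg
      · rw [h2, h3, show (Fintype.card H : ℤ) * (0 - 1) = -(Fintype.card H : ℤ) by ring] at hdvd
        exact (dvd_neg.mp hdvd)
      · rw [h2, h3, show (Fintype.card H : ℤ) * (1 - 0) = (Fintype.card H : ℤ) by ring] at hdvd
        exact hdvd
      · exact absurd (h2.trans h3.symm) hgg
    exact_mod_cast h1
  obtain ⟨a, -, ha⟩ := (Nat.dvd_prime_pow Nat.prime_two).mp hN2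
  have hVI := Ind.V_eq hf
  rw [hV, hcard, ha] at hVI
  set k : ℤ := ∑ g, f g with hk
  have hkeq : k * (2 ^ c - k) = 4 ^ a * (2 ^ c - 1) := by
    rw [← hVI]
    push_cast
    rw [show (4 : ℤ) = 2 ^ 2 by norm_num, ← pow_mul, ← pow_mul]
    ring
  rcases Nat.eq_zero_or_pos a with ha0 | ha0
  · left
    subst ha0
    refine ⟨by simpa using ha, ?_⟩
    have h1 : (k - 1) * (2 ^ c - 1 - k) = 0 := by
      have : k * (2 ^ c - k) = 2 ^ c - 1 := by simpa using hkeq
      linear_combination this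
    rcases mul_eq_zero.mp h1 with h2 | h2
    · have hk1 : k = 1 := by linarith
      obtain ⟨h0, hh0⟩ : ∃ h0, f h0 = 1 := by
        by_contra hcon
        push Not at hcon
        have : k = 0 := by
          rw [hk]
          refine Finset.sum_eq_zero fun x _ => ?_
          rcases hf x with h | h
          · exact h
          · exact absurd h (hcon x)
        omega
      refine ⟨h0, fun h hh => ?_⟩
      rw [hh0]
      have h3 : ∑ x ∈ (univ : Finset H).erase h0, f x = 0 := by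
        have := Finset.add_sum_erase _ f (Finset.mem_univ h0)
        rw [hh0] at this
        linarith
      have h4 := (Finset.sum_eq_zero_iff_of_nonneg (fun x _ => by
        rcases hf x with h | h <;> rw [h] <;> norm_num)).mp h3 h
        (Finset.mem_erase.mpr ⟨hh, Finset.mem_univ _⟩)
      rw [h4]
      norm_num
    · have hk1 : k = 2 ^ c - 1 := by linarith
      have hsum : ∑ x, (1 - f x) = 1 := by
        rw [Finset.sum_sub_distrib, ← hk, hk1]
        simp [hH]
      obtain ⟨h0, hh0⟩ : ∃ h0, f h0 = 0 := by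
        by_contra hcon
        push Not at hcon
        have : ∑ x, (1 - f x) = 0 := by
          refine Finset.sum_eq_zero fun x _ => ?_
          rcases hf x with h | h
          · exact absurd h (hcon x)
          · rw [h]
            norm_num
        omega
      refine ⟨h0, fun h hh => ?_⟩
      rw [hh0]
      have h3 : ∑ x ∈ (univ : Finset H).erase h0, (1 - f x) = 0 := by
        have := Finset.add_sum_erase _ (fun x => 1 - f x) (Finset.mem_univ h0)
        rw [hh0] at this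
        linarith
      have h4 := (Finset.sum_eq_zero_iff_of_nonneg (fun x _ => by
        rcases hf x with h | h <;> rw [h] <;> norm_num)).mp h3 h
        (Finset.mem_erase.mpr ⟨hh, Finset.mem_univ _⟩)
      linarith
  · right
    exact ⟨a, ha0, ha, two_arith hc ha0 hkeq⟩

end Pool.Agent.DS
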