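import Pool.Agent.DS.Sub
import Pool.Agent.DS.Cong
import Pool.Agent.DS.Two
import Pool.Agent.Helper58.McF.Pell
import Pool.Agent.DS.Arith2
import Pool.Agent.DS.Six
import Pool.Agent.Helper62.MinusOne.SEven

namespace Pool.Agent.DS

open Finset

theorem le_of_sub_sq {p r s : ℕ} (hp : 1 < p) {x y : ℤ} (hx : 0 ≤ x) (hx' : x ≤ (p : ℤ) ^ s)
    (hy : 0 ≤ y) (hy' : y ≤ (p : ℤ) ^ s) (h : (x - y) ^ 2 = ((p : ℤ) ^ r) ^ 2) : r ≤ s := by
  have hp' : (1 : ℤ) < p := by exact_mod_cast hp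
  have h1 : (p : ℤ) ^ r ≤ (p : ℤ) ^ s := by
    rcases sq_eq_sq_iff_eq_or_eq_neg.mp h with h2 | h2 <;> linarith
  exact (pow_le_pow_iff_right₀ hp').mp h1

/-- The conditions on a local exceptional case: `p` an odd prime, `2 ^ c` and `p ^ s` the orders of
the Sylow subgroups, `p ^ r` the exact power of `p` dividing the square root of the order. -/
structure Exc (p c r s : ℕ) : Prop where
  hc : 3 ≤ c
  lt : r < s
  lt' : 3 * s < 5 * r
  small : r < 6 → p = 5 ∧ c = 5 ∧ r = 2 ∧ s = 3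
  five : c = 5 → p = 5 ∧ r = 2 ∧ s = 3
  even : p ≠ 3 → Even r
  eight : 6 ≤ r → 8 ≤ s
  even' : p % 4 = 3 → Even s
  three : p = 3 → 9 ≤ r

/-- The case of odd order, normalised by complementation. -/
theorem local_one {H P : Type*} [AddCommGroup H] [Fintype H] [AddCommGroup P] [Fintype P]
    {p c s r : ℕ} (hp : p.Prime) (hp2 : p ≠ 2) (hc : 1 ≤ c) (hr : 1 ≤ r)
    (hH : Fintype.card H = 2 ^ c) (hP : Fintype.card P = p ^ s) (f : H × P → ℤ) (hf : Ind f)
    (hF : Flat f (p ^ r)) (h0 : H) (hh0 : f (h0, 0) = 0) (hh : ∀ h, h ≠ h0 → f (h, 0) = 1)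
    (hdiff : ∀ q q', (∑ l, f (q, l) - ∑ l, f (q', l)) ^ 2 =
      ((p ^ r : ℕ) : ℤ) ^ 2 * (f (q, 0) - f (q', 0)) ^ 2) :
    (c = 2 ∧ s = 2 * r) ∨ Exc p c r s := by
  classical
  have hp1 : 1 < p := hp.one_lt
  have hpZ : (1 : ℤ) < p := by exact_mod_cast hp1
  have hpodd : Odd p := hp.odd_of_ne_two hp2
  have hprpos : (0 : ℤ) < (p : ℤ) ^ r := by positivity
  obtain ⟨h1, hh1⟩ := Fintype.exists_ne_of_one_lt_card
    (show 1 < Fintype.card H by rw [hH]; exact Nat.one_lt_two_pow (by omega)) h0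
  set F : H → ℤ := fun h => ∑ l, f (h, l) with hFdef
  have hFn : ∀ h, 0 ≤ F h := fun h => Finset.sum_nonneg fun l _ => by
    rcases hf (h, l) with h | h <;> rw [h]
    norm_num
  have hFl : ∀ h, F h ≤ (p : ℤ) ^ s := by
    intro h
    have : F h ≤ ∑ _l : P, (1 : ℤ) := Finset.sum_le_sum fun l _ => by
      rcases hf (h, l) with h | h <;> rw [h]
      norm_num
    simpa [hP] using this
  set κ : ℤ := F h1 with hκ
  have hFh : ∀ h, h ≠ h0 → F h = κ := by
    intro h hne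
    have := hdiff h h1
    rw [hh h hne, hh h1 hh1] at this
    have h2 : (F h - κ) ^ 2 = 0 := by
      rw [hκ, hFdef]
      simpa using this
    have h3 := pow_eq_zero_iff (two_ne_zero) |>.mp h2
    linarith
  have hF0 : (F h0 - κ) ^ 2 = ((p : ℤ) ^ r) ^ 2 := by
    have := hdiff h0 h1
    rw [hh0, hh h1 hh1] at this
    rw [hκ, hFdef]
    simpa using this
  have hrs : r ≤ s := le_of_sub_sq hp1 (hFn h0) (hFl h0) (hFn h1) (hFl h1) hF0
  obtain ⟨t, ht⟩ : ∃ t, s = t + r := ⟨s - r, by omega⟩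
  obtain ⟨δ, hδ, hδ2⟩ : ∃ δ : ℤ, (δ = 1 ∨ δ = -1) ∧ F h0 = κ + δ * (p : ℤ) ^ r := by
    rcases sq_eq_sq_iff_eq_or_eq_neg.mp hF0 with h2 | h2
    · exact ⟨1, Or.inl rfl, by linarith⟩
    · exact ⟨-1, Or.inr rfl, by linarith⟩
  -- the size
  have hk : ∑ x, f x = 2 ^ c * κ + δ * (p : ℤ) ^ r := by
    rw [Fintype.sum_prod_type]
    change ∑ h, F h = _
    rw [← Finset.add_sum_erase _ _ (Finset.mem_univ h0), hδ2,
      Finset.sum_congr rfl fun h hne => hFh h (Finset.ne_of_mem_erase hne), Finset.sum_const,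
      Finset.card_erase_of_mem (Finset.mem_univ _), Finset.card_univ, hH, nsmul_eq_mul]
    have : 1 ≤ 2 ^ c := Nat.one_le_two_pow
    push_cast [Nat.cast_sub this]
    ring
  have hV := hF.V_eq
  rw [Ind.V_eq hf, hk, Fintype.card_prod, hH, hP] at hV
  push_cast at hV
  have hev : p % 4 = 3 → Even s := fun h4 =>
    Pool.Agent.MinusOne.s_even hp h4 hc hr hrs (2 ^ c * κ + δ * (p : ℤ) ^ r) (by linear_combination hV)
  have hδδ : δ * δ = 1 := by rcases hδ with h | h <;> rw [h] <;> norm_num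
  -- divisibility of `κ`
  obtain ⟨c', hc'⟩ : ∃ c', c = c' + 1 := ⟨c - 1, by omega⟩
  have hdiv : (p : ℤ) ^ r ∣ κ := by
    have h2 : (2 ^ c * (p : ℤ) ^ s - 2 * (2 ^ c * κ + δ * (p : ℤ) ^ r)) ^ 2 =
        (2 * (p : ℤ) ^ r) ^ 2 * ((2 ^ c' * (p : ℤ) ^ t) ^ 2 - 2 ^ c * (p : ℤ) ^ s + 1) := by
      have h3 : (2 : ℤ) ^ c * (p : ℤ) ^ s = 2 * (p : ℤ) ^ r * (2 ^ c' * (p : ℤ) ^ t) := by
        rw [hc', ht]
        ring
      have h4 : (2 ^ c * (p : ℤ) ^ s) ^ 2 = (2 * (p : ℤ) ^ r) ^ 2 * (2 ^ c' * (p : ℤ) ^ t) ^ 2 := by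
        rw [h3]
        ring
      linear_combination h4 - 4 * hV
    have h5 : 2 * (p : ℤ) ^ r ∣ 2 ^ c * (p : ℤ) ^ s - 2 * (2 ^ c * κ + δ * (p : ℤ) ^ r) :=
      (Int.pow_dvd_pow_iff two_ne_zero).mp ⟨_, h2⟩
    have h6 : (p : ℤ) ^ r ∣ 2 ^ (c + 1) * κ := by
      obtain ⟨z, hz⟩ := h5
      refine ⟨2 ^ c * (p : ℤ) ^ t - 2 * δ - 2 * z, ?_⟩
      have h7 : (p : ℤ) ^ s = (p : ℤ) ^ t * (p : ℤ) ^ r := by rw [ht, pow_add]
      rw [h7] at hz
      rw [pow_succ]
      linear_combination -hz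
    have h7 : IsCoprime ((p : ℤ) ^ r) (2 ^ (c + 1)) := by
      apply IsCoprime.pow
      have : IsCoprime (p : ℤ) ((2 : ℕ) : ℤ) :=
        Nat.isCoprime_iff_coprime.mpr (Nat.coprime_two_right.mpr hpodd)
      exact_mod_cast this
    exact h7.dvd_of_dvd_mul_left h6
  obtain ⟨a, ha⟩ := hdiv
  have hps : (p : ℤ) ^ s = (p : ℤ) ^ r * (p : ℤ) ^ t := by rw [ht, pow_add]; ring
  have ha0 : 0 ≤ a := by
    have := hFn h1
    rw [← hκ, ha] at this
    exact nonneg_of_mul_nonneg_right this hprpos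
  have ha1 : a ≤ (p : ℤ) ^ t := by
    have := hFl h1
    rw [← hκ, ha, hps] at this
    exact le_of_mul_le_mul_left this hprpos
  have ha2 : 0 ≤ a + δ := by
    have := hFn h0
    rw [hδ2, ha, show (p : ℤ) ^ r * a + δ * (p : ℤ) ^ r = (p : ℤ) ^ r * (a + δ) by ring] at this
    exact nonneg_of_mul_nonneg_right this hprpos
  have ha3 : a + δ ≤ (p : ℤ) ^ t := by
    have := hFl h0
    rw [hδ2, ha, hps, show (p : ℤ) ^ r * a + δ * (p : ℤ) ^ r = (p : ℤ) ^ r * (a + δ) by ring] at this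
    exact le_of_mul_le_mul_left this hprpos
  -- the equation
  have hE : 2 ^ c * a * ((p : ℤ) ^ t - a) + δ * ((p : ℤ) ^ t - 2 * a) = (p : ℤ) ^ (t + r) := by
    have h2 : ((p : ℤ) ^ r) ^ 2 * 2 ^ c * (2 ^ c * a * ((p : ℤ) ^ t - a) +
        δ * ((p : ℤ) ^ t - 2 * a)) = ((p : ℤ) ^ r) ^ 2 * 2 ^ c * (p : ℤ) ^ (t + r) := by
      rw [ha, hps] at hV
      rw [pow_add]
      linear_combination hV + ((p : ℤ) ^ r) ^ 2 * hδδ
    exact mul_left_cancel₀ (by positivity) h2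
  -- the congruences
  have hcopH : (Fintype.card H).Coprime p := by
    rw [hH]
    exact Nat.Coprime.pow_left _ (Nat.coprime_two_left.mpr hpodd)
  have hpr : ((p : ℤ) - 1) ∣ (p : ℤ) ^ r - 1 := by
    have := sub_dvd_pow_sub_pow (p : ℤ) 1 r
    simpa using this
  have hcong1 : ((p : ℤ) - 1) ∣ a - 1 := by
    have h2 := cong2 hp hcopH hP hF h1
    rw [hh h1 hh1] at h2
    change ((p : ℤ) - 1) ∣ κ - 1 at h2
    rw [ha] at h2
    have h3 : a - 1 = ((p : ℤ) ^ r * a - 1) - a * ((p : ℤ) ^ r - 1) := by ring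
    rw [h3]
    exact dvd_sub h2 (dvd_mul_of_dvd_right hpr _)
  have hcong2 : ((p : ℤ) - 1) ∣ a + δ := by
    have h2 := cong2 hp hcopH hP hF h0
    rw [hh0] at h2
    change ((p : ℤ) - 1) ∣ F h0 - 0 at h2
    rw [hδ2, ha] at h2
    have h3 : a + δ = ((p : ℤ) ^ r * a + δ * (p : ℤ) ^ r - 0) - (a + δ) * ((p : ℤ) ^ r - 1) := by
      ring
    rw [h3]
    exact dvd_sub h2 (dvd_mul_of_dvd_right hpr _)
  rcases local_arith2 hp hp2 hc hr a δ hδ ha0 ha1 ha2 ha3 hcong1 hcong2 hE with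
    ⟨h2, h3⟩ | ⟨h2, ht1, htr, h3, h4, h5, h9⟩
  · left
    exact ⟨h2, by omega⟩
  · right
    refine ⟨h2, by omega, by omega, fun h6 => ?_, fun h6 => ?_, h5, fun h6 => ?_, hev, h9⟩
    · obtain ⟨h7, h8, h9, h10⟩ := h3 h6
      exact ⟨h7, h8, h9, by omega⟩
    · obtain ⟨h7, h8, h9⟩ := h4 h6
      exact ⟨h7, h8, by omega⟩
    · by_contra hcon
      have h7 : t = 1 := by omega
      have h8 : r = 6 := by omega
      subst h7
      subst h8
      exact no_six hp hp2 hc a δ hδ ha0 ha1 hcong1 hcong2 hE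

/-- The local theorem: flat functions on `H × P`, `H` a `2`-group, `P` a `p`-group. -/
theorem local_thm {H P : Type*} [AddCommGroup H] [Fintype H] [AddCommGroup P] [Fintype P]
    {p c s r NH : ℕ} (hp : p.Prime) (hp2 : p ≠ 2) (hc : 1 ≤ c) (hr : 1 ≤ r)
    (hH : Fintype.card H = 2 ^ c) (hP : Fintype.card P = p ^ s) (hNH : NH.Coprime p)
    (hNH0 : 0 < NH) (f : H × P → ℤ) (hf : Ind f) (hF : Flat f (p ^ r * NH)) :
    (2 ^ c = 4 * NH ^ 2 ∧ s = 2 * r) ∨ (NH = 1 ∧ Exc p c r s) := by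
  classical
  have hp1 : 1 < p := hp.one_lt
  have hpodd : Odd p := hp.odd_of_ne_two hp2
  have hodd : Odd (Fintype.card P) := by
    rw [hP]
    exact hpodd.pow
  have hcop : (Fintype.card H).Coprime (Fintype.card P) := by
    rw [hH, hP]
    exact Nat.Coprime.pow _ _ (Nat.coprime_two_left.mpr hpodd)
  obtain ⟨h0flat, hdiff⟩ := sub f hf hodd hcop (p ^ r) NH
    (by rw [hH]; exact Nat.Coprime.pow _ _ (Nat.coprime_two_right.mpr hpodd))
    (by rw [hP]; exact Nat.Coprime.pow_right _ hNH) (pow_pos (by omega) r) hF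
  rcases two_group hc hH (fun q => f (q, 0)) (fun q => hf (q, 0)) hNH0 h0flat with
    ⟨hN1, h0, hh0⟩ | ⟨a, ha, hNa, hca⟩
  · subst hN1
    rw [mul_one] at hF
    have key : (c = 2 ∧ s = 2 * r) ∨ Exc p c r s := by
      rcases hf (h0, 0) with h1 | h1
      · refine local_one hp hp2 hc hr hH hP f hf hF h0 h1 ?_ hdiff
        intro h hne
        rw [hh0 h hne, h1]
        norm_num
      · refine local_one hp hp2 hc hr hH hP (fun x => 1 - f x) ?_ hF.compl h0 (by rw [h1]; norm_num)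
          ?_ ?_
        · intro g
          rcases hf g with h2 | h2
          · right
            change 1 - f g = 1
            rw [h2]
            norm_num
          · left
            change 1 - f g = 0
            rw [h2]
            norm_num
        · intro h hne
          rw [hh0 h hne, h1]
          norm_num
        · intro q q'
          have h3 := hdiff q q'
          simp only [Finset.sum_sub_distrib]
          have h4 : ∀ A B C : ℤ, (A - B - (A - C)) ^ 2 = (B - C) ^ 2 := fun A B C => by ring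
          rw [h4, h3]
          ring
    rcases key with ⟨h1, h2⟩ | h1
    · left
      rw [h1]
      exact ⟨by norm_num, h2⟩
    · right
      exact ⟨rfl, h1⟩
  · left
    -- even order
    have hV := hF.V_eq
    rw [Ind.V_eq hf, Fintype.card_prod, hH, hP, hNa] at hV
    push_cast at hV
    set k : ℤ := ∑ x, f x with hk
    -- `r ≤ s`
    have hne : ∃ q q', f (q, 0) ≠ f (q', 0) := by
      by_contra hcon
      push Not at hcon
      have h1 := V_pair (fun q : H => f (q, 0))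
      have h2 : ∑ g : H, ∑ g' : H, (f (g, 0) - f (g', 0)) ^ 2 = 0 := by
        refine Finset.sum_eq_zero fun g _ => Finset.sum_eq_zero fun g' _ => ?_
        rw [hcon g g']
        ring
      rw [h2, h0flat.V_eq, hH] at h1
      have h3 : (1 : ℤ) ≤ (NH : ℤ) ^ 2 := by
        have : (1 : ℤ) ≤ NH := by exact_mod_cast hNH0
        nlinarith
      have h4 : (2 : ℤ) ≤ ((2 ^ c : ℕ) : ℤ) := by
        exact_mod_cast (calc 2 = 2 ^ 1 := by norm_num
          _ ≤ 2 ^ c := Nat.pow_le_pow_right (by norm_num) hc)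
      nlinarith
    obtain ⟨q, q', hqq⟩ := hne
    have hFn : ∀ h, 0 ≤ ∑ l, f (h, l) := fun h => Finset.sum_nonneg fun l _ => by
      rcases hf (h, l) with h | h <;> rw [h]
      norm_num
    have hFl : ∀ h, ∑ l, f (h, l) ≤ (p : ℤ) ^ s := by
      intro h
      have : ∑ l, f (h, l) ≤ ∑ _l : P, (1 : ℤ) := Finset.sum_le_sum fun l _ => by
        rcases hf (h, l) with h | h <;> rw [h]
        norm_num
      simpa [hP] using this
    have hsq : (f (q, 0) - f (q', 0)) ^ 2 = 1 := by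
      rcases hf (q, 0) with h3 | h3 <;> rcases hf (q', 0) with h4 | h4 <;>
        first | (exact absurd (h3.trans h4.symm) hqq) | (rw [h3, h4]; norm_num)
    have hrs : r ≤ s := by
      apply le_of_sub_sq hp1 (hFn q) (hFl q) (hFn q') (hFl q')
      rw [hdiff q q', hsq, mul_one]
      push_cast
      ring
    obtain ⟨t, ht⟩ : ∃ t, s = t + r := ⟨s - r, by omega⟩
    have h2c : (2 : ℤ) ^ c = (2 ^ (a + 1)) ^ 2 := by
      rw [hca]
      ring
    have h1 : (2 ^ c * (p : ℤ) ^ s - 2 * k) ^ 2 = (2 ^ (a + 1) * (p : ℤ) ^ r) ^ 2 *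
        ((2 ^ (a + 1)) ^ 2 * (p : ℤ) ^ (2 * t) - (2 ^ (a + 1)) ^ 2 * (p : ℤ) ^ (t + r) + 1) := by
      have h3 : (p : ℤ) ^ s = (p : ℤ) ^ t * (p : ℤ) ^ r := by rw [ht, pow_add]
      have h4 : (p : ℤ) ^ (t + r) = (p : ℤ) ^ t * (p : ℤ) ^ r := by rw [pow_add]
      have h5 : (p : ℤ) ^ (2 * t) = ((p : ℤ) ^ t) ^ 2 := by rw [← pow_mul]; ring_nf
      have h6 : (2 : ℤ) ^ (a + 1) = 2 * 2 ^ a := by ring
      rw [h4, h5, h6]
      rw [h2c, h3, h6] at hV ⊢
      linear_combination (-4) * hV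
    have h2 : 2 ^ (a + 1) * (p : ℤ) ^ r ∣ 2 ^ c * (p : ℤ) ^ s - 2 * k :=
      (Int.pow_dvd_pow_iff two_ne_zero).mp ⟨_, h1⟩
    obtain ⟨z, hz⟩ := h2
    have h3 : z ^ 2 = (2 ^ (a + 1)) ^ 2 * (p : ℤ) ^ (2 * t) -
        (2 ^ (a + 1)) ^ 2 * (p : ℤ) ^ (t + r) + 1 := by
      have hpos : (0 : ℤ) < (2 ^ (a + 1) * (p : ℤ) ^ r) ^ 2 := by
        have : (0 : ℤ) < p := by exact_mod_cast (by omega : 0 < p)
        positivity
      apply mul_left_cancel₀ hpos.ne'
      rw [← h1, hz]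
      ring
    have h4 := Pool.Agent.Helper58.McF.pell_lemma hp hp2 hr h3
    refine ⟨?_, by omega⟩
    rw [hca, hNa]
    ring

end Pool.Agent.DS
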