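import Mathlib

namespace Pool.Agent.DS

universe u

theorem card_ker_coprime {G : Type u} [AddCommGroup G] [Finite G] (a b : ℕ) (hab : a.Coprime b)
    (H : AddSubgroup G) (hH : ∀ x ∈ H, a • x = 0) : (Nat.card H).Coprime b := by
  by_contra hcon
  obtain ⟨p, hp, hp1, hp2⟩ := Nat.Prime.not_coprime_iff_dvd.1 hcon
  have : Fact p.Prime := ⟨hp⟩
  obtain ⟨x, hx⟩ := exists_prime_addOrderOf_dvd_card' (G := H) p hp1
  have h1 : addOrderOf x ∣ a := by
    apply addOrderOf_dvd_of_nsmul_eq_zero
    apply Subtype.ext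
    have := hH x x.2
    simpa using this
  rw [hx] at h1
  have h2 : p ∣ Nat.gcd a b := Nat.dvd_gcd h1 hp2
  rw [hab] at h2
  exact hp.one_lt.ne' (Nat.dvd_one.1 h2)

/-- Splitting of a finite abelian group. -/
theorem split {G : Type u} [AddCommGroup G] [Fintype G] (a b : ℕ) (hab : a.Coprime b)
    (hG : Fintype.card G = a * b) :
    ∃ (A B : Type u) (_ : AddCommGroup A) (_ : Fintype A) (_ : AddCommGroup B) (_ : Fintype B),
      Fintype.card A = a ∧ Fintype.card B = b ∧ Nonempty ((A × B) ≃+ G) := by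
  classical
  let A : AddSubgroup G := (nsmulAddMonoidHom a : G →+ G).ker
  let B : AddSubgroup G := (nsmulAddMonoidHom b : G →+ G).ker
  have hA : ∀ x, x ∈ A ↔ a • x = 0 := fun x => by
    simp only [A, AddMonoidHom.mem_ker, nsmulAddMonoidHom_apply]
  have hB : ∀ x, x ∈ B ↔ b • x = 0 := fun x => by
    simp only [B, AddMonoidHom.mem_ker, nsmulAddMonoidHom_apply]
  have hab0 : ∀ x : G, (a * b) • x = 0 := fun x => by
    rw [← hG, card_nsmul_eq_zero]
  have hpos : 0 < a * b := by rw [← hG]; exact Fintype.card_pos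
  let φ : (A × B) →+ G := AddMonoidHom.coprod A.subtype B.subtype
  have hφ : ∀ x : A × B, φ x = (x.1 : G) + x.2 := fun x => rfl
  have hint : ∀ x : G, a • x = 0 → b • x = 0 → x = 0 := by
    intro x h1 h2
    have h3 : addOrderOf x ∣ Nat.gcd a b :=
      Nat.dvd_gcd (addOrderOf_dvd_of_nsmul_eq_zero h1) (addOrderOf_dvd_of_nsmul_eq_zero h2)
    rw [hab] at h3
    exact AddMonoid.addOrderOf_eq_one_iff.1 (Nat.dvd_one.1 h3)
  have hinj : Function.Injective φ := by
    rw [injective_iff_map_eq_zero]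
    rintro ⟨x, y⟩ h
    rw [hφ] at h
    simp only at h
    have hx : (x : G) = -y := eq_neg_of_add_eq_zero_left h
    have h1 : (x : G) = 0 := by
      apply hint _ ((hA _).1 x.2)
      rw [hx, smul_neg, (hB _).1 y.2, neg_zero]
    have h2 : (y : G) = 0 := by
      rw [h1, zero_add] at h
      exact h
    exact Prod.ext (Subtype.ext h1) (Subtype.ext h2)
  have hsurj : Function.Surjective φ := by
    intro g
    have hbez : (a : ℤ) * Nat.gcdA a b + b * Nat.gcdB a b = 1 := by
      have := Nat.gcd_eq_gcd_ab a b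
      rw [hab] at this
      rw [← this]; norm_num
    have hab0' : ((a : ℤ) * b) • g = 0 := by
      have := hab0 g
      rw [← natCast_zsmul] at this
      push_cast at this
      exact this
    refine ⟨(⟨((b : ℤ) * Nat.gcdB a b) • g, ?_⟩, ⟨((a : ℤ) * Nat.gcdA a b) • g, ?_⟩), ?_⟩
    · rw [hA, ← natCast_zsmul, smul_smul]
      have : (a : ℤ) * ((b : ℤ) * Nat.gcdB a b) = Nat.gcdB a b * ((a : ℤ) * b) := by ring
      rw [this, mul_smul, hab0', smul_zero]
    · rw [hB, ← natCast_zsmul, smul_smul]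
      have : (b : ℤ) * ((a : ℤ) * Nat.gcdA a b) = Nat.gcdA a b * ((a : ℤ) * b) := by ring
      rw [this, mul_smul, hab0', smul_zero]
    · rw [hφ]
      simp only
      rw [← add_smul, add_comm, hbez, one_smul]
  have hcard : Nat.card A * Nat.card B = a * b := by
    rw [← Nat.card_prod, Nat.card_congr (Equiv.ofBijective φ ⟨hinj, hsurj⟩),
      Nat.card_eq_fintype_card, hG]
  have hAb : (Nat.card A).Coprime b := card_ker_coprime a b hab A (fun x hx => (hA x).1 hx)
  have hBa : (Nat.card B).Coprime a := card_ker_coprime b a hab.symm B (fun x hx => (hB x).1 hx)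
  have h1 : Nat.card A ∣ a := by
    apply hAb.dvd_of_dvd_mul_right
    rw [← hcard]
    exact dvd_mul_right _ _
  have h2 : Nat.card B ∣ b := by
    apply hBa.dvd_of_dvd_mul_left
    rw [← hcard]
    exact dvd_mul_left _ _
  have ha0 : 0 < a := by
    rcases Nat.eq_zero_or_pos a with h | h
    · rw [h] at hpos; simp at hpos
    · exact h
  have hb0 : 0 < b := by
    rcases Nat.eq_zero_or_pos b with h | h
    · rw [h] at hpos; simp at hpos
    · exact h
  have h3 := Nat.le_of_dvd ha0 h1
  have h4 := Nat.le_of_dvd hb0 h2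
  have h5 : Nat.card A = a := by
    by_contra hne
    have : Nat.card A < a := lt_of_le_of_ne h3 hne
    have h6 : Nat.card A * Nat.card B < a * b :=
      calc Nat.card A * Nat.card B ≤ Nat.card A * b := Nat.mul_le_mul_left _ h4
        _ < a * b := Nat.mul_lt_mul_of_pos_right this hb0
    omega
  have h6 : Nat.card B = b := by
    rw [h5] at hcard
    exact Nat.eq_of_mul_eq_mul_left ha0 hcard
  refine ⟨A, B, inferInstance, Fintype.ofFinite _, inferInstance, Fintype.ofFinite _, ?_, ?_,
    ⟨AddEquiv.ofBijective φ ⟨hinj, hsurj⟩⟩⟩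
  · rw [Fintype.card_eq_nat_card]; exact h5
  · rw [Fintype.card_eq_nat_card]; exact h6

end Pool.Agent.DS
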