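import Pool.Agent.DS.Basics

namespace Pool.Agent.DS

open Finset

/-- A quadratic character separating `a` from `2G`. -/
theorem quad_char {G : Type*} [AddCommGroup G] [Fintype G] (a : G) (ha : ∀ b : G, a ≠ b + b) :
    ∃ χ : AddChar G ℂ, χ a = -1 ∧ ∀ g, χ g = 1 ∨ χ g = -1 := by
  classical
  let H : AddSubgroup G := (nsmulAddMonoidHom 2 : G →+ G).range
  have hmem : ∀ x : G, x ∈ H ↔ ∃ b, b + b = x := by
    intro x
    simp only [H, AddMonoidHom.mem_range, nsmulAddMonoidHom_apply, two_nsmul]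
  have hQ : ∀ x : G ⧸ H, x + x = 0 := by
    intro x
    obtain ⟨z, rfl⟩ := QuotientAddGroup.mk_surjective x
    rw [← QuotientAddGroup.mk_add, QuotientAddGroup.eq_zero_iff]
    exact (hmem _).2 ⟨z, rfl⟩
  have ha0 : (a : G ⧸ H) ≠ 0 := by
    intro h
    rw [QuotientAddGroup.eq_zero_iff] at h
    obtain ⟨b, hb⟩ := (hmem _).1 h
    exact ha b hb.symm
  obtain ⟨ψ, hψ⟩ := (AddChar.exists_apply_ne_zero (a := (a : G ⧸ H))).2 ha0
  have hsq : ∀ x : G ⧸ H, ψ x = 1 ∨ ψ x = -1 := by
    intro x
    have : ψ x * ψ x = 1 := by rw [← AddChar.map_add_eq_mul, hQ, AddChar.map_zero_eq_one]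
    exact mul_self_eq_one_iff.1 this
  refine ⟨ψ.compAddMonoidHom (QuotientAddGroup.mk' H), ?_, fun g => ?_⟩
  · rw [AddChar.compAddMonoidHom_apply]
    exact (hsq _).resolve_left hψ
  · rw [AddChar.compAddMonoidHom_apply]
    exact hsq _

section

variable {G : Type*} [AddCommGroup G] [Fintype G] [DecidableEq G] (D : Finset G) (lam : ℕ)

omit [Fintype G] in
theorem card_diff_zero : ((D ×ˢ D).filter fun x => x.1 - x.2 = 0).card = D.card := by
  have : (D ×ˢ D).filter (fun x => x.1 - x.2 = 0) = D.image (fun d => (d, d)) := by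
    ext ⟨x, y⟩
    simp only [mem_filter, mem_product, mem_image, Prod.mk.injEq, sub_eq_zero]
    constructor
    · rintro ⟨⟨h1, _⟩, rfl⟩
      exact ⟨x, h1, rfl, rfl⟩
    · rintro ⟨d, hd, rfl, rfl⟩
      exact ⟨⟨hd, hd⟩, rfl⟩
  rw [this, card_image_of_injective]
  intro x y h
  exact (Prod.mk.injEq _ _ _ _ ▸ h).1

theorem diff_count (hD : IsDiffSet D lam) :
    D.card * D.card + lam = D.card + lam * Fintype.card G := by
  classical
  have h1 : (D ×ˢ D).card = ∑ g : G, ((D ×ˢ D).filter fun x => x.1 - x.2 = g).card :=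
    card_eq_sum_card_fiberwise (fun _ _ => mem_coe.2 (mem_univ _))
  rw [card_product, ← add_sum_erase _ _ (mem_univ (0 : G)), card_diff_zero] at h1
  have h2 : ∑ g ∈ univ.erase (0 : G), ((D ×ˢ D).filter fun x => x.1 - x.2 = g).card
      = (Fintype.card G - 1) * lam := by
    rw [sum_congr rfl (fun g hg => hD g (ne_of_mem_erase hg)), sum_const, card_erase_of_mem
      (mem_univ _), card_univ, smul_eq_mul]
  rw [h2] at h1
  have h3 : 0 < Fintype.card G := Fintype.card_pos
  obtain ⟨m, hm⟩ : ∃ m, Fintype.card G = m + 1 := ⟨Fintype.card G - 1, by omega⟩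
  rw [hm] at h1 ⊢
  rw [h1]
  simp only [Nat.add_sub_cancel]
  ring

theorem diff_char (hD : IsDiffSet D lam) (χ : AddChar G ℂ) (hχ : χ ≠ 0) :
    (∑ d ∈ D, χ d) * (∑ d ∈ D, χ (-d)) = (D.card : ℂ) - lam := by
  classical
  have h1 : (∑ d ∈ D, χ d) * (∑ d ∈ D, χ (-d)) = ∑ x ∈ D ×ˢ D, χ (x.1 - x.2) := by
    rw [sum_mul_sum, sum_product]
    refine sum_congr rfl fun x _ => sum_congr rfl fun y _ => ?_
    rw [sub_eq_add_neg, AddChar.map_add_eq_mul]
  have h2 : ∑ x ∈ D ×ˢ D, χ (x.1 - x.2) =
      ∑ g : G, (((D ×ˢ D).filter fun x => x.1 - x.2 = g).card : ℂ) * χ g := by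
    rw [← sum_fiberwise (D ×ˢ D) (fun x => x.1 - x.2) (fun x => χ (x.1 - x.2))]
    refine sum_congr rfl fun g _ => ?_
    rw [sum_congr rfl (g := fun _ => χ g) (fun x hx => by rw [(mem_filter.1 hx).2]), sum_const,
      nsmul_eq_mul]
  have h3 : ∑ g ∈ univ.erase (0 : G), (((D ×ˢ D).filter fun x => x.1 - x.2 = g).card : ℂ) * χ g
      = lam * ∑ g ∈ univ.erase (0 : G), χ g := by
    rw [mul_sum]
    refine sum_congr rfl fun g hg => ?_
    rw [hD g (ne_of_mem_erase hg)]
  have h4 : ∑ g ∈ univ.erase (0 : G), χ g = -1 := by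
    have := add_sum_erase univ (fun g => χ g) (mem_univ (0 : G))
    rw [AddChar.sum_eq_zero_iff_ne_zero.2 hχ, AddChar.map_zero_eq_one] at this
    linear_combination this
  rw [h1, h2, ← add_sum_erase _ _ (mem_univ (0 : G)), card_diff_zero, h3, h4,
    AddChar.map_zero_eq_one]
  ring

end

/-- From a nontrivial difference set with multiplier `-1` to a flat function. -/
theorem start {G : Type*} [AddCommGroup G] [Fintype G] [DecidableEq G] (D : Finset G) (lam : ℕ)
    (hD : IsDiffSet D lam) (hneg : NegMult D) (h1 : 1 < D.card)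
    (h2 : D.card < Fintype.card G - 1) :
    Even (Fintype.card G) ∧ lam < D.card ∧
    ∃ (N : ℕ) (f : G → ℤ), 0 < N ∧ N ≠ 1 ∧ D.card - lam = N ^ 2 ∧ Ind f ∧ Flat f N ∧
      ∑ g, f g = D.card := by
  classical
  obtain ⟨a, ha⟩ := hneg
  have hcount := diff_count D lam hD
  obtain ⟨m, hm⟩ : ∃ m, Fintype.card G = m + 1 := ⟨Fintype.card G - 1, by omega⟩
  obtain ⟨k, hk⟩ : ∃ k, D.card = k + 1 := ⟨D.card - 1, by omega⟩
  have hlam : lam < D.card := by
    by_contra hcon
    push Not at hcon
    have : (k + 1) * m ≤ lam * m := Nat.mul_le_mul_right _ (by omega)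
    rw [hk, hm] at hcount
    have h3 : k * (k + 1) < (k + 1) * m := by
      rw [mul_comm k]
      exact Nat.mul_lt_mul_of_pos_left (by omega) (by omega)
    nlinarith
  have hn1 : D.card - lam ≠ 1 := by
    intro h
    have hl : lam = k := by omega
    rw [hk, hm, hl] at hcount
    have h3 : k * (k + 1) = k * m := by nlinarith
    have h4 : k + 1 = m := Nat.eq_of_mul_eq_mul_left (by omega) h3
    omega
  -- the characters
  have hconj : ∀ χ : AddChar G ℂ, ∑ d ∈ D, χ (-d) = χ a * ∑ d ∈ D, χ d := by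
    intro χ
    have e1 : ∑ x ∈ D.image (fun d => -d), χ x = ∑ d ∈ D, χ (-d) :=
      sum_image (fun x _ y _ h => neg_injective h)
    have e2 : ∑ x ∈ D.image (fun d => d + a), χ x = ∑ d ∈ D, χ (d + a) :=
      sum_image (fun x _ y _ h => add_right_cancel h)
    rw [← e1, ha, e2, mul_sum]
    refine sum_congr rfl fun d _ => ?_
    rw [AddChar.map_add_eq_mul, mul_comm]
  have hS : ∀ χ : AddChar G ℂ, χ ≠ 0 → χ a * (∑ d ∈ D, χ d) ^ 2 = ((D.card - lam : ℕ) : ℂ) := by
    intro χ hχ
    have := diff_char D lam hD χ hχ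
    rw [hconj χ] at this
    rw [Nat.cast_sub hlam.le]
    linear_combination this
  have hint : ∀ χ : AddChar G ℂ, (∀ g, χ g = 1 ∨ χ g = -1) → ∃ z : ℤ, ∑ d ∈ D, χ d = z := by
    intro χ hχ
    refine ⟨∑ d ∈ D, (if χ d = 1 then 1 else -1), ?_⟩
    push_cast
    refine sum_congr rfl fun d _ => ?_
    split_ifs with h
    · simp [h]
    · simp [(hχ d).resolve_left h]
  -- `a` is a double
  obtain ⟨b, hb⟩ : ∃ b, a = b + b := by
    by_contra hcon
    push Not at hcon
    obtain ⟨χ, hχa, hχ⟩ := quad_char a hcon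
    have hχ0 : χ ≠ 0 := by
      rintro rfl
      simp at hχa
      norm_num at hχa
    obtain ⟨z, hz⟩ := hint χ hχ
    have h3 := hS χ hχ0
    rw [hχa, hz] at h3
    have h4 : -(z ^ 2 : ℤ) = ((D.card - lam : ℕ) : ℤ) := by
      have : ((-(z ^ 2) : ℤ) : ℂ) = (((D.card - lam : ℕ) : ℤ) : ℂ) := by
        push_cast
        rw [← h3]; ring
      exact_mod_cast this
    have h5 : (0 : ℤ) < ((D.card - lam : ℕ) : ℤ) := by
      have : 0 < D.card - lam := by omega
      exact_mod_cast this
    nlinarith [sq_nonneg z]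
  -- the order is even
  have hinv : ∀ y, y ∈ D → -y - a ∈ D := by
    intro y hy
    have : -y ∈ D.image (fun d => d + a) := by rw [← ha]; exact mem_image_of_mem _ hy
    obtain ⟨d, hd, hda⟩ := mem_image.1 this
    rw [← hda]
    simpa using hd
  have heven : Even (Fintype.card G) := by
    by_contra hodd
    rw [Nat.not_even_iff_odd] at hodd
    have hinj : ∀ x y : G, x + x = y + y → x = y := by
      intro x y hxy
      have h3 : (2 : ℕ) • (x - y) = 0 := by
        rw [two_nsmul]
        have : x - y + (x - y) = (x + x) - (y + y) := by abel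
        rw [this, hxy, sub_self]
      have h4 : addOrderOf (x - y) ∣ 2 := addOrderOf_dvd_of_nsmul_eq_zero h3
      have h5 : addOrderOf (x - y) ∣ Fintype.card G := addOrderOf_dvd_card
      have h6 : addOrderOf (x - y) = 1 := by
        rcases (Nat.dvd_prime Nat.prime_two).1 h4 with h | h
        · exact h
        · rw [h] at h5
          exact absurd (even_iff_two_dvd.2 h5) (Nat.not_even_iff_odd.2 hodd)
      rw [AddMonoid.addOrderOf_eq_one_iff] at h6
      exact sub_eq_zero.1 h6
    have key : ∀ x : G, x ≠ -b → ((lam : ZMod 2) = if x ∈ D then 1 else 0) := by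
      intro x hx
      have hg : x + x + a ≠ 0 := by
        intro h
        apply hx
        apply hinj
        rw [hb] at h
        have : x + x = -(b + b) := eq_neg_of_add_eq_zero_left h
        rw [this, neg_add]
      have hcard : ((D ×ˢ D).filter fun p => p.1 + p.2 = x + x).card = lam := by
        rw [← hD _ hg]
        refine card_nbij' (fun p => (p.1, -p.2 - a)) (fun p => (p.1, -p.2 - a)) ?_ ?_ ?_ ?_
        · rintro ⟨p, q⟩ hp
          simp only [coe_filter, mem_product, Set.mem_ofPred_eq] at hp ⊢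
          refine ⟨⟨hp.1.1, hinv _ hp.1.2⟩, ?_⟩
          rw [← hp.2]; abel
        · rintro ⟨p, q⟩ hp
          simp only [coe_filter, mem_product, Set.mem_ofPred_eq] at hp ⊢
          refine ⟨⟨hp.1.1, hinv _ hp.1.2⟩, ?_⟩
          have : p - q - a = x + x := by rw [hp.2]; abel
          rw [← this]; abel
        · rintro ⟨p, q⟩ _
          simp
        · rintro ⟨p, q⟩ _
          simp
      have hsplit := card_filter_add_card_filter_not (s := (D ×ˢ D).filter fun p => p.1 + p.2 = x + x)
        (fun p => p.1 = p.2)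
      have hne : (((((D ×ˢ D).filter fun p => p.1 + p.2 = x + x).filter
          (fun p => ¬ p.1 = p.2)).card : ℕ) : ZMod 2) = 0 := by
        rw [card_eq_sum_ones]
        push_cast
        refine sum_involution (fun p _ => (p.2, p.1)) ?_ ?_ ?_ ?_
        · intro _ _; decide
        · rintro ⟨p, q⟩ hp _ h
          simp only [mem_filter] at hp
          exact hp.2 (by simpa using (Prod.mk.inj h).2)
        · rintro ⟨p, q⟩ hp
          simp only [mem_filter, mem_product] at hp ⊢
          exact ⟨⟨⟨hp.1.1.2, hp.1.1.1⟩, by rw [add_comm]; exact hp.1.2⟩, fun h => hp.2 h.symm⟩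
        · rintro ⟨p, q⟩ _
          rfl
      have heq : (((D ×ˢ D).filter fun p => p.1 + p.2 = x + x).filter
          (fun p => p.1 = p.2)).card = if x ∈ D then 1 else 0 := by
        split_ifs with hxD
        · have : ((D ×ˢ D).filter fun p => p.1 + p.2 = x + x).filter
              (fun p => p.1 = p.2) = {(x, x)} := by
            ext ⟨p, q⟩
            simp only [mem_filter, mem_product, mem_singleton, Prod.mk.injEq]
            constructor
            · rintro ⟨⟨⟨hp, hq⟩, h⟩, rfl⟩
              exact ⟨hinj _ _ h, hinj _ _ h⟩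
            · rintro ⟨rfl, rfl⟩
              exact ⟨⟨⟨hxD, hxD⟩, rfl⟩, rfl⟩
          rw [this, card_singleton]
        · rw [card_eq_zero, eq_empty_iff_forall_notMem]
          rintro ⟨p, q⟩ hpq
          simp only [mem_filter, mem_product] at hpq
          obtain ⟨⟨⟨hp, hq⟩, h⟩, rfl⟩ := hpq
          exact hxD ((hinj _ _ h) ▸ hp)
      rw [heq, hcard] at hsplit
      rw [← hsplit]
      push_cast
      rw [hne, add_zero]
    -- an element of `D` and an element outside `D`, both different from `-b`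
    obtain ⟨x, hxD, hxb⟩ : ∃ x ∈ D, x ≠ -b := by
      obtain ⟨x, hx, y, hy, hxy⟩ := one_lt_card.1 h1
      by_cases h : x = -b
      · exact ⟨y, hy, fun h' => hxy (h.trans h'.symm)⟩
      · exact ⟨x, hx, h⟩
    obtain ⟨y, hyD, hyb⟩ : ∃ y ∉ D, y ≠ -b := by
      have : 1 < Dᶜ.card := by
        rw [card_compl]; omega
      obtain ⟨x, hx, y, hy, hxy⟩ := one_lt_card.1 this
      by_cases h : x = -b
      · exact ⟨y, mem_compl.1 hy, fun h' => hxy (h.trans h'.symm)⟩
      · exact ⟨x, mem_compl.1 hx, h⟩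
    have e1 := key x hxb
    have e2 := key y hyb
    rw [if_pos hxD] at e1
    rw [if_neg hyD, e1] at e2
    exact one_ne_zero e2
  refine ⟨heven, hlam, ?_⟩
  -- `n` is a square
  obtain ⟨N, hN⟩ : ∃ N : ℕ, D.card - lam = N ^ 2 := by
    obtain ⟨c, hc⟩ : ∃ c : G, ∀ x : G, c ≠ x + x := by
      by_contra hcon
      push Not at hcon
      have hsurj : Function.Surjective (fun x : G => x + x) := fun c => by
        obtain ⟨x, hx⟩ := hcon c
        exact ⟨x, hx.symm⟩
      have hinj := Finite.injective_iff_surjective.2 hsurj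
      obtain ⟨u, hu⟩ := exists_prime_addOrderOf_dvd_card (G := G) 2 (even_iff_two_dvd.1 heven)
      have h3 : u + u = 0 + 0 := by
        have := addOrderOf_nsmul_eq_zero u
        rw [hu, two_nsmul] at this
        rw [this, add_zero]
      have h4 : u = 0 := hinj h3
      rw [h4, addOrderOf_zero] at hu
      omega
    obtain ⟨χ, hχc, hχ⟩ := quad_char c hc
    have hχ0 : χ ≠ 0 := by
      rintro rfl
      simp at hχc
      norm_num at hχc
    obtain ⟨z, hz⟩ := hint χ hχ
    have h3 := hS χ hχ0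
    have h4 : χ a = 1 := by
      rw [hb, AddChar.map_add_eq_mul]
      rcases hχ b with h | h <;> rw [h] <;> norm_num
    rw [h4, hz, one_mul] at h3
    refine ⟨z.natAbs, ?_⟩
    have h5 : (z ^ 2 : ℤ) = ((D.card - lam : ℕ) : ℤ) := by exact_mod_cast h3
    have h6 : ((z.natAbs ^ 2 : ℕ) : ℤ) = ((D.card - lam : ℕ) : ℤ) := by
      rw [← h5]; push_cast; exact sq_abs z
    exact_mod_cast h6.symm
  refine ⟨N, fun g => if g - b ∈ D then 1 else 0, ?_, ?_, hN, ?_, ?_, ?_⟩
  · rcases Nat.eq_zero_or_pos N with h | h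
    · rw [h] at hN; simp at hN; omega
    · exact h
  · rintro rfl
    exact hn1 (by rw [hN]; norm_num)
  · intro g
    by_cases h : g - b ∈ D
    · right; simp [h]
    · left; simp [h]
  · intro χ hχ
    have hft : ft (fun g => if g - b ∈ D then (1 : ℤ) else 0) χ = χ b * ∑ d ∈ D, χ d := by
      unfold ft
      have e1 : ∑ g : G, (((if g - b ∈ D then (1 : ℤ) else 0) : ℤ) : ℂ) * χ g
          = ∑ g : G, if g ∈ D then χ (g + b) else 0 := by
        rw [← Equiv.sum_comp (Equiv.addRight b)]
        refine sum_congr rfl fun g _ => ?_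
        simp only [Equiv.coe_addRight, add_sub_cancel_right]
        split_ifs <;> simp
      rw [e1, sum_ite_mem, univ_inter, mul_sum]
      refine sum_congr rfl fun d _ => ?_
      rw [AddChar.map_add_eq_mul, mul_comm]
    have h3 := hS χ hχ
    rw [hb, AddChar.map_add_eq_mul, hN] at h3
    have h4 : (ft (fun g => if g - b ∈ D then (1 : ℤ) else 0) χ) ^ 2 = (N : ℂ) ^ 2 := by
      rw [hft]
      push_cast at h3
      linear_combination h3
    exact sq_eq_sq_iff_eq_or_eq_neg.1 h4
  · have e1 : ∑ g : G, (if g - b ∈ D then (1 : ℤ) else 0) = ∑ g : G, if g ∈ D then 1 else 0 := by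
      rw [← Equiv.sum_comp (Equiv.addRight b)]
      refine sum_congr rfl fun g _ => ?_
      simp
    rw [e1, sum_ite_mem, univ_inter, sum_const, nsmul_eq_mul, mul_one]

end Pool.Agent.DS
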