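import Pool.Agent.DS.Local
import Pool.Agent.DS.Start
import Pool.Agent.DS.Split

namespace Pool.Agent.DS

open Finset

universe u

/-- Splitting a number into a part supported on the primes of `m` and a part prime to `m`. -/
theorem exists_part (m : ℕ) : ∀ N : ℕ, 0 < N → ∃ A B : ℕ, N = A * B ∧ B.Coprime m ∧ 0 < A ∧ 0 < B ∧
    ∀ q : ℕ, q.Prime → q ∣ A → q ∣ m := by
  intro N
  induction N using Nat.strong_induction_on with
  | _ N ih =>
    intro hN
    by_cases h : N.Coprime m
    · exact ⟨1, N, (one_mul N).symm, h, one_pos, hN, fun q hq hq1 =>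
        absurd (Nat.dvd_one.mp hq1) hq.one_lt.ne'⟩
    · obtain ⟨q, hq, hqN, hqm⟩ := Nat.Prime.not_coprime_iff_dvd.mp h
      obtain ⟨N', rfl⟩ := hqN
      have hN' : 0 < N' := Nat.pos_of_mul_pos_left hN
      have hlt : N' < q * N' := by
        have := hq.two_le
        nlinarith
      obtain ⟨A, B, hAB, hB, hA0, hB0, hA⟩ := ih N' hlt hN'
      refine ⟨q * A, B, by rw [hAB]; ring, hB, Nat.mul_pos hq.pos hA0, hB0, fun l hl hlA => ?_⟩
      rcases hl.dvd_mul.mp hlA with h1 | h1
      · rwa [(Nat.prime_dvd_prime_iff_eq hl hq).mp h1]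
      · exact hA l hl h1

/-- The local conclusion at an odd prime dividing the order of the group. -/
theorem loc {G : Type u} [AddCommGroup G] [Fintype G] (f : G → ℤ) (hf : Ind f) {N A B : ℕ}
    (hF : Flat f N) (hN : 0 < N) (hN1 : N ≠ 1) (hAB : N = A * B) {m c : ℕ}
    (hv : Fintype.card G = 2 ^ c * m) (hm : Odd m) (hc : 1 ≤ c) (hB : B.Coprime m)
    (hA : ∀ q : ℕ, q.Prime → q ∣ A → q ∣ m) {p : ℕ} (hp : p.Prime) (hpm : p ∣ m) :
    1 ≤ N.factorization p ∧
    ((2 ^ c = 4 * B ^ 2 ∧ m.factorization p = 2 * N.factorization p) ∨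
      (B = 1 ∧ Exc p c (N.factorization p) (m.factorization p))) := by
  classical
  have hm0 : m ≠ 0 := by
    rintro rfl
    exact absurd hm (by decide)
  have hA0 : A ≠ 0 := by
    rintro rfl
    rw [zero_mul] at hAB
    omega
  have hB0 : B ≠ 0 := by
    rintro rfl
    rw [mul_zero] at hAB
    omega
  have hp2 : p ≠ 2 := by
    rintro rfl
    exact (Nat.not_even_iff_odd.mpr hm) (even_iff_two_dvd.mpr hpm)
  have hpodd : Odd p := hp.odd_of_ne_two hp2
  obtain ⟨s, m', hpm', hms⟩ := Nat.exists_eq_pow_mul_and_not_dvd hm0 p hp.ne_one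
  obtain ⟨r, A', hpA', hAr⟩ := Nat.exists_eq_pow_mul_and_not_dvd hA0 p hp.ne_one
  have hpB : ¬ p ∣ B := fun h => by
    have := Nat.dvd_gcd h hpm
    rw [hB] at this
    exact hp.one_lt.ne' (Nat.dvd_one.mp this)
  have hm'0 : m' ≠ 0 := by
    rintro rfl
    exact hpm' (dvd_zero p)
  have hA'0 : A' ≠ 0 := by
    rintro rfl
    exact hpA' (dvd_zero p)
  have hsf : m.factorization p = s := by
    rw [hms, Nat.factorization_mul (pow_ne_zero _ hp.ne_zero) hm'0, hp.factorization_pow,
      Finsupp.add_apply, Finsupp.single_eq_same, Nat.factorization_eq_zero_of_not_dvd hpm', add_zero]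
  have hrf : N.factorization p = r := by
    rw [hAB, hAr, Nat.factorization_mul (mul_ne_zero (pow_ne_zero _ hp.ne_zero) hA'0) hB0,
      Nat.factorization_mul (pow_ne_zero _ hp.ne_zero) hA'0, hp.factorization_pow]
    simp [Nat.factorization_eq_zero_of_not_dvd hpA', Nat.factorization_eq_zero_of_not_dvd hpB]
  rw [hsf, hrf]
  have hs1 : 1 ≤ s := by
    by_contra hcon
    have : s = 0 := by omega
    rw [this, pow_zero, one_mul] at hms
    exact hpm' (hms ▸ hpm)
  have hm'odd : Odd m' := by
    rw [hms] at hm
    exact (Nat.odd_mul.mp hm).2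
  have hcopm' : (p ^ s).Coprime m' := (Nat.Prime.coprime_iff_not_dvd hp).mpr hpm' |>.pow_left s
  have hcop2 : (2 ^ c).Coprime p := Nat.Coprime.pow_left _ (Nat.coprime_two_left.mpr hpodd)
  -- `p` divides `N`
  have hr1 : 1 ≤ r := by
    by_contra hcon
    have hr0 : r = 0 := by omega
    subst hr0
    have hcop : (2 ^ c * m').Coprime (p ^ s) :=
      Nat.Coprime.mul_left (hcop2.pow_right s) hcopm'.symm
    obtain ⟨Q, L, _, _, _, _, hQ, hL, ⟨e⟩⟩ := split (G := G) (2 ^ c * m') (p ^ s) hcop
      (by rw [hv, hms]; ring)
    have h1 : N.Coprime (Fintype.card L) := by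
      rw [hL]
      apply Nat.Coprime.pow_right
      rw [Nat.coprime_comm, Nat.Prime.coprime_iff_not_dvd hp, hAB, hAr]
      intro h
      rcases hp.dvd_mul.mp h with h2 | h2
      · rcases hp.dvd_mul.mp h2 with h3 | h3
        · rw [pow_zero] at h3
          exact hp.one_lt.ne' (Nat.dvd_one.mp h3)
        · exact hpA' h3
      · exact hpB h2
    refine hN1 (no_new (fun x => f (e x)) (fun x => hf (e x)) ?_ ?_ ?_ ?_ N h1 hN
      (hF.comp_equiv e))
    · rw [hL]
      exact hpodd.pow
    · rw [hL]
      exact Nat.one_lt_pow (by omega) hp.one_lt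
    · rw [hQ]
      have h2 : 2 ≤ 2 ^ c := by
        calc 2 = 2 ^ 1 := by norm_num
          _ ≤ 2 ^ c := Nat.pow_le_pow_right (by norm_num) hc
      have h3 : 1 ≤ m' := Nat.one_le_iff_ne_zero.mpr hm'0
      nlinarith
    · rw [hQ, hL]
      exact hcop
  refine ⟨hr1, ?_⟩
  -- restriction to `H × P`
  have hcop : (2 ^ c * p ^ s).Coprime m' := by
    apply Nat.Coprime.mul_left
    · exact Nat.Coprime.pow_left _ (Nat.coprime_two_left.mpr hm'odd)
    · exact hcopm'
  obtain ⟨Q, L, _, _, _, _, hQ, hL, ⟨e⟩⟩ := split (G := G) (2 ^ c * p ^ s) m' hcop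
    (by rw [hv, hms]; ring)
  have h1 : A'.Coprime (Fintype.card Q) := by
    rw [hQ]
    apply Nat.Coprime.mul_right
    · apply Nat.Coprime.pow_right
      rw [Nat.coprime_comm, Nat.Prime.coprime_iff_not_dvd Nat.prime_two]
      intro h
      have h2 : 2 ∣ m := hA 2 Nat.prime_two (hAr ▸ (h.mul_left _))
      exact (Nat.not_even_iff_odd.mpr hm) (even_iff_two_dvd.mpr h2)
    · apply Nat.Coprime.pow_right
      rw [Nat.coprime_comm, Nat.Prime.coprime_iff_not_dvd hp]
      exact hpA'
  have h2 : (p ^ r * B).Coprime (Fintype.card L) := by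
    rw [hL]
    apply Nat.Coprime.mul_left
    · exact (Nat.Prime.coprime_iff_not_dvd hp).mpr hpm' |>.pow_left r
    · exact hB.coprime_dvd_right ⟨p ^ s, by rw [hms]; ring⟩
  have hFe : Flat (fun x => f (e x)) (A' * (p ^ r * B)) := by
    have := hF.comp_equiv e
    rwa [hAB, hAr, show p ^ r * A' * B = A' * (p ^ r * B) by ring] at this
  obtain ⟨hflat, -⟩ := sub (fun x => f (e x)) (fun x => hf (e x)) (by rw [hL]; exact hm'odd)
    (by rw [hQ, hL]; exact hcop) A' (p ^ r * B) h1 h2 (Nat.pos_of_ne_zero hA'0) hFe
  obtain ⟨H, P, _, _, _, _, hH, hP, ⟨e2⟩⟩ := split (G := Q) (2 ^ c) (p ^ s) (hcop2.pow_right s) hQ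
  exact local_thm hp hp2 hc hr1 hH hP
    ((Nat.Prime.coprime_iff_not_dvd hp).mpr hpB).symm (Nat.pos_of_ne_zero hB0)
    (fun x => f (e (e2 x, 0))) (fun x => hf _) (hflat.comp_equiv e2)

theorem main {G : Type u} [AddCommGroup G] [Fintype G] [DecidableEq G] (D : Finset G)
    (v k lam n : ℕ) (hv : Fintype.card G = v) (hk : D.card = k) (hn : n = k - lam)
    (hD : IsDiffSet D lam) (hneg : NegMult D) (h1 : 1 < k) (h2 : k < v - 1) :
    v = 4 * n ∨ (v, k, lam) = (4000, 775, 150) ∨ (v, k, lam) = (4000, 3225, 2600) ∨
      (Odd n ∧ 10 ^ 8 < n ∧ ∀ p : ℕ, p.Prime → p ∣ n →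
        p ^ 12 ∣ n ∧ p ^ 8 ∣ v ∧ (p ≠ 3 → 4 ∣ padicValNat p n) ∧
        (p % 4 = 3 → 2 ∣ padicValNat p v) ∧
        padicValNat p n < 2 * padicValNat p v ∧ 6 * padicValNat p v < 5 * padicValNat p n) := by
  classical
  subst hk
  obtain ⟨hev, hlam, N, f, hN0, hN1, hNn, hf, hF, hsum⟩ :=
    start D lam hD hneg h1 (by rw [hv]; exact h2)
  have hv0 : v ≠ 0 := by omega
  obtain ⟨c, m, hm2, hvm⟩ := Nat.exists_eq_pow_mul_and_not_dvd hv0 2 (by norm_num)
  have hmodd : Odd m := by
    rw [← Nat.not_even_iff_odd, even_iff_two_dvd]
    exact hm2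
  have hc : 1 ≤ c := by
    by_contra hcon
    have : c = 0 := by omega
    rw [this, pow_zero, one_mul] at hvm
    rw [hv, hvm] at hev
    exact (Nat.not_even_iff_odd.mpr hmodd) hev
  have hm0 : m ≠ 0 := by
    rintro rfl
    exact absurd hmodd (by decide)
  obtain ⟨A, B, hAB, hB, hA0, hB0, hA⟩ := exists_part m N hN0
  have hloc : ∀ p : ℕ, p.Prime → p ∣ m → _ := fun p hp hpm =>
    loc f hf hF hN0 hN1 hAB (by rw [hv, hvm]) hmodd hc hB hA hp hpm
  rw [← hn] at hNn
  by_cases hcase : 2 ^ c = 4 * B ^ 2
  · -- Menon parameters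
    left
    have hmA : m = A ^ 2 := by
      apply Nat.eq_of_factorization_eq hm0 (by positivity)
      intro p
      by_cases hp : p.Prime
      · rw [Nat.factorization_pow]
        simp only [Finsupp.smul_apply, smul_eq_mul]
        by_cases hpm : p ∣ m
        · have hNA : N.factorization p = A.factorization p := by
            rw [hAB, Nat.factorization_mul hA0.ne' hB0.ne', Finsupp.add_apply,
              Nat.factorization_eq_zero_of_not_dvd (n := B), add_zero]
            intro h
            have := Nat.dvd_gcd h hpm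
            rw [hB] at this
            exact hp.one_lt.ne' (Nat.dvd_one.mp this)
          obtain ⟨h3, h4 | h4⟩ := hloc p hp hpm
          · rw [h4.2, hNA]
          · exfalso
            obtain ⟨h5, h6⟩ := h4
            rw [h5] at hcase
            have : 2 ^ 3 ≤ 2 ^ c := Nat.pow_le_pow_right (by norm_num) h6.hc
            omega
        · rw [Nat.factorization_eq_zero_of_not_dvd hpm,
            Nat.factorization_eq_zero_of_not_dvd (fun h => hpm (hA p hp h))]
      · rw [Nat.factorization_eq_zero_of_not_prime _ hp, Nat.factorization_eq_zero_of_not_prime _ hp]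
    rw [hvm, hcase, hmA, hNn, hAB]
    ring
  · by_cases hm1 : m = 1
    · -- a `2`-group
      exfalso
      rw [hm1, mul_one] at hvm
      rcases two_group hc (by rw [hv, hvm]) f hf hN0 hF with ⟨h3, -⟩ | ⟨a, ha, hNa, hca⟩
      · exact hN1 h3
      · -- `A = 1`
        have hA1 : A = 1 := by
          by_contra hne
          obtain ⟨q, hq, hqA⟩ := Nat.exists_prime_and_dvd hne
          have := hA q hq hqA
          rw [hm1] at this
          exact hq.one_lt.ne' (Nat.dvd_one.mp this)
        rw [hA1, one_mul] at hAB
        apply hcase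
        rw [← hAB, hNa, hca]
        ring
    · obtain ⟨p0, hp0, hp0m⟩ := Nat.exists_prime_and_dvd hm1
      -- the second alternative holds at all primes
      have hB1 : B = 1 := by
        obtain ⟨-, h4 | h4⟩ := hloc p0 hp0 hp0m
        · exact absurd h4.1 hcase
        · exact h4.1
      have hNA : N = A := by rw [hAB, hB1, mul_one]
      have hall : ∀ p : ℕ, p.Prime → p ∣ m →
          Exc p c (N.factorization p) (m.factorization p) := by
        intro p hp hpm
        obtain ⟨h3, h4 | h4⟩ := hloc p hp hpm
        · exact absurd h4.1 hcase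
        · exact h4.2
      by_cases hsmall : ∃ p : ℕ, p.Prime ∧ p ∣ m ∧ N.factorization p < 6
      · -- McFarland's parameters
        obtain ⟨p, hp, hpm, hlt⟩ := hsmall
        obtain ⟨h4, hc5, h5, h6⟩ := (hall p hp hpm).small hlt
        have honly : ∀ q : ℕ, q.Prime → q ∣ m → q = 5 ∧ N.factorization q = 2 ∧
            m.factorization q = 3 := fun q hq hqm => (hall q hq hqm).five hc5
        have hm5 : m = 5 ^ 3 := by
          apply Nat.eq_of_factorization_eq hm0 (by positivity)
          intro q
          by_cases hq : q.Prime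
          · rw [Nat.Prime.factorization_pow (by norm_num)]
            by_cases hqm : q ∣ m
            · obtain ⟨h7, -, h8⟩ := honly q hq hqm
              rw [h8, h7, Finsupp.single_eq_same]
            · rw [Nat.factorization_eq_zero_of_not_dvd hqm, Finsupp.single_eq_of_ne]
              rintro rfl
              exact hqm (h4 ▸ hpm)
          · rw [Nat.factorization_eq_zero_of_not_prime _ hq,
              Nat.factorization_eq_zero_of_not_prime _ hq]
        have hN25 : N = 5 ^ 2 := by
          apply Nat.eq_of_factorization_eq hN0.ne' (by positivity)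
          intro q
          by_cases hq : q.Prime
          · rw [Nat.Prime.factorization_pow (by norm_num)]
            by_cases hqm : q ∣ m
            · obtain ⟨h7, h8, -⟩ := honly q hq hqm
              rw [h8, h7, Finsupp.single_eq_same]
            · rw [Nat.factorization_eq_zero_of_not_dvd (fun h => hqm (hA q hq (hNA ▸ h))),
                Finsupp.single_eq_of_ne]
              rintro rfl
              exact hqm (h4 ▸ hpm)
          · rw [Nat.factorization_eq_zero_of_not_prime _ hq,
              Nat.factorization_eq_zero_of_not_prime _ hq]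
        have hv4000 : v = 4000 := by
          rw [hvm, hc5, hm5]
          norm_num
        have hn625 : n = 625 := by
          rw [hNn, hN25]
          norm_num
        have hV := hF.V_eq
        rw [Ind.V_eq hf, hsum, hv, hv4000, hN25] at hV
        norm_num at hV
        have hk : (D.card : ℤ) = 775 ∨ (D.card : ℤ) = 3225 := by
          have h7 : ((D.card : ℤ) - 775) * ((D.card : ℤ) - 3225) = 0 := by linear_combination -hV
          rcases mul_eq_zero.mp h7 with h8 | h8
          · left
            linarith
          · right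
            linarith
        right
        rcases hk with h7 | h7
        · left
          have h8 : D.card = 775 := by exact_mod_cast h7
          rw [hv4000, h8]
          have h9 : lam = 150 := by omega
          rw [h9]
        · right
          left
          have h8 : D.card = 3225 := by exact_mod_cast h7
          rw [hv4000, h8]
          have h9 : lam = 2600 := by omega
          rw [h9]
      · right
        right
        right
        push Not at hsmall
        have hNodd : Odd N := by
          rw [← Nat.not_even_iff_odd, even_iff_two_dvd]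
          intro h3
          exact hm2 (hA 2 Nat.prime_two (hNA ▸ h3))
        have hdvd : ∀ p : ℕ, p.Prime → p ∣ n → p ∣ m := fun p hp hpn => by
          have hpN : p ∣ N := by
            rw [hNn] at hpn
            exact hp.dvd_of_dvd_pow hpn
          exact hA p hp (hNA ▸ hpN)
        have hpow : ∀ p : ℕ, p.Prime → ∀ j, j ≤ N.factorization p → p ^ (2 * j) ∣ n := by
          intro p hp j hj
          have h7 : p ^ j ∣ N := (hp.pow_dvd_iff_le_factorization hN0.ne').mpr hj
          rw [hNn, mul_comm, pow_mul]
          exact pow_dvd_pow_of_dvd h7 2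
        have hn0 : 0 < n := by
          rw [hNn]
          positivity
        refine ⟨by rw [hNn]; exact hNodd.pow, ?_, ?_⟩
        · have hn1 : n ≠ 1 := by
            rw [hNn]
            intro h
            exact hN1 (by nlinarith)
          obtain ⟨q, hq, hqn⟩ := Nat.exists_prime_and_dvd hn1
          have hqm := hdvd q hq hqn
          by_cases hq3 : q = 3
          · have h1 := Nat.le_of_dvd hn0 (hpow q hq 9 ((hall q hq hqm).three hq3))
            rw [hq3] at h1
            norm_num at h1 ⊢
            omega
          · have h1 := Nat.le_of_dvd hn0 (hpow q hq 6 (hsmall q hq hqm))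
            have hq5 : 5 ≤ q := by
              have h2 := hq.two_le
              have h3 : q ≠ 2 := by
                rintro rfl
                exact (Nat.not_even_iff_odd.mpr hmodd) (even_iff_two_dvd.mpr hqm)
              have h4 : q ≠ 4 := by
                rintro rfl
                exact absurd hq (by norm_num)
              omega
            have h2 : 5 ^ (2 * 6) ≤ q ^ (2 * 6) := Nat.pow_le_pow_left hq5 _
            norm_num at h1 h2 ⊢
            omega
        · intro p hp hpn
          have hpm : p ∣ m := hdvd p hp hpn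
          have h6 := hsmall p hp hpm
          have hE := hall p hp hpm
          have : Fact p.Prime := ⟨hp⟩
          have hp2 : p ≠ 2 := by
            rintro rfl
            exact (Nat.not_even_iff_odd.mpr hmodd) (even_iff_two_dvd.mpr hpm)
          have hvn : padicValNat p n = 2 * N.factorization p := by
            rw [hNn, padicValNat.pow, ← Nat.factorization_def N hp]
          have hvv : padicValNat p v = m.factorization p := by
            rw [← Nat.factorization_def v hp, hvm, Nat.factorization_mul (by positivity) hm0,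
              Finsupp.add_apply, Nat.Prime.factorization_pow Nat.prime_two,
              Finsupp.single_eq_of_ne hp2, zero_add]
          refine ⟨hpow p hp 6 h6, ?_, ?_, ?_, ?_, ?_⟩
          · rw [hvm]
            exact dvd_mul_of_dvd_right ((hp.pow_dvd_iff_le_factorization hm0).mpr (hE.eight h6)) _
          · intro hp3
            obtain ⟨j, hj⟩ := hE.even hp3
            rw [hvn, hj]
            exact ⟨j, by ring⟩
          · intro hp4
            obtain ⟨j, hj⟩ := hE.even' hp4
            rw [hvv, hj]
            exact ⟨j, by ring⟩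
          · rw [hvn, hvv]
            have := hE.lt
            omega
          · rw [hvn, hvv]
            have := hE.lt'
            omega

end Pool.Agent.DS
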