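import Mathlib
import Pool.Agent.Helper58.McF.Pell

namespace Pool.Agent.DS

/-- The case of even order (conjecture (A) of Ma, theorem of Le and Xiang). -/
theorem pellA {p : ℕ} (hp : p.Prime) (hp2 : p ≠ 2) {a t r : ℕ} (_ha : 1 ≤ a) (hr : 1 ≤ r) (z : ℤ)
    (h : z ^ 2 = (2 ^ (a + 1)) ^ 2 * (p : ℤ) ^ (2 * t) - (2 ^ (a + 1)) ^ 2 * (p : ℤ) ^ (t + r) + 1) :
    t = r :=
  Pool.Agent.Helper58.McF.pell_lemma hp hp2 hr h

end Pool.Agent.DS
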